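import Pool.Agent.X324.ML.Core

/-! From boxes to heights. -/

namespace Pool.Agent.X324.ML

open Finset Matrix Module
open Pool.Agent.H548.WM (ht bx mem_bx le_ht' ht_le card_bx card_bx_le dy dy_spec ht_pos Rep)
open Pool.Agent.H548.BL (log_bound rep_ne)

variable {ι : Type} [Fintype ι] [DecidableEq ι] {N : ι → ℕ} {k : ℕ}

/-- The infimum of all `t` such that `t L + K` is in the cone generated by the coordinate
classes, where `L = (l i)` and `K = (k - N i)`. -/
noncomputable def fuj (N : ι → ℕ) (k : ℕ) (l : ι → ℝ) : ℝ :=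
  sInf {t : ℝ | ∀ i, 0 ≤ t * l i - ((N i : ℝ) - k)}

omit [DecidableEq ι] in
theorem fuj_spec [Nonempty ι] (N : ι → ℕ) (k : ℕ) (l : ι → ℝ) (hl : ∀ i, 0 < l i) (i : ι) :
    (N i : ℝ) - k ≤ fuj N k l * l i := by
  have hne : {t : ℝ | ∀ i, 0 ≤ t * l i - ((N i : ℝ) - k)}.Nonempty := by
    refine ⟨∑ i, |((N i : ℝ) - k) / l i|, fun j => ?_⟩
    have h1 : |((N j : ℝ) - k) / l j| ≤ ∑ i, |((N i : ℝ) - k) / l i| :=
      Finset.single_le_sum (f := fun i => |((N i : ℝ) - k) / l i|)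
        (fun _ _ => abs_nonneg _) (mem_univ j)
    have h2 : ((N j : ℝ) - k) / l j ≤ ∑ i, |((N i : ℝ) - k) / l i| := (le_abs_self _).trans h1
    rw [div_le_iff₀ (hl j)] at h2
    linarith
  have hbd : BddBelow {t : ℝ | ∀ i, 0 ≤ t * l i - ((N i : ℝ) - k)} := by
    refine ⟨((N i : ℝ) - k) / l i, fun t ht => ?_⟩
    rw [div_le_iff₀ (hl i)]
    linarith [ht i]
  have hcl : IsClosed {t : ℝ | ∀ i, 0 ≤ t * l i - ((N i : ℝ) - k)} := by
    rw [Set.ofPred_forall]
    exact isClosed_iInter fun i => isClosed_le continuous_const (by fun_prop)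
  have := hcl.csInf_mem hne hbd i
  unfold fuj
  linarith

/-- The points which are counted. -/
def Pts (a : Fin k → (∀ i, Fin (N i)) → ℤ) (l : ι → ℝ) (T : ℝ) : Set (Vec N ℤ) :=
  {x | (∀ i, Rep (x i)) ∧ (∀ c, mf (a c) x = 0) ∧ (∀ i, LI a x i) ∧
    ∏ i, (ht (x i) : ℝ) ^ l i ≤ T}

open Classical in
/-- The upper bound for all line bundles. -/
theorem upper (a : Fin k → (∀ i, Fin (N i)) → ℤ) (hr : 1 ≤ Fintype.card ι)
    (hkN : ∀ i, k < N i)
    (hbox : ∀ ε : ℝ, 0 < ε → ∃ K : ℝ, 0 ≤ K ∧ ∀ A : ι → ℕ, (∀ l, 1 ≤ A l) →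
      ((S a A).card : ℝ) ≤ K * (∏ l, (A l : ℝ) ^ (N l - k)) * (∏ l, (A l : ℝ)) ^ ε)
    (l : ι → ℝ) (hl : ∀ i, 0 < l i) (ε : ℝ) (hε : 0 < ε) :
    ∃ C : ℝ, ∀ T : ℝ, 1 ≤ T → (Pts a l T).Finite ∧
      ((Pts a l T).ncard : ℝ) ≤ C * T ^ (fuj N k l + ε) := by
  have hne : Nonempty ι := Fintype.card_pos_iff.1 (by omega)
  obtain ⟨i0, hi0⟩ := Finite.exists_min l
  have hfuj := fuj_spec N k l hl
  set α := fuj N k l with hα
  set r := Fintype.card ι with hrdef
  have hr0 : (0 : ℝ) < r := by exact_mod_cast hr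
  have hα0 : 0 < α := by
    have h1 := hfuj i0
    have h2 : (k : ℝ) < N i0 := by exact_mod_cast hkN i0
    have h3 : 0 < α * l i0 := by linarith
    exact (pos_iff_pos_of_mul_pos h3).2 (hl i0)
  set ε' : ℝ := l i0 * ε / 2 with hε'
  have hε'0 : 0 < ε' := by have := hl i0; positivity
  obtain ⟨K, hK0, hK⟩ := hbox ε' hε'0
  set δ : ℝ := ε / (2 * r) with hδ
  have hδ0 : 0 < δ := by positivity
  have hlog2 : 0 < Real.log 2 := Real.log_pos (by norm_num)
  let C0 : ι → ℝ := fun i => (2 + 1 / (l i * Real.log 2)) * (1 + 1 / δ)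
  have hC0 : ∀ i, 0 ≤ C0 i := fun i => by have := hl i; positivity
  set D : ℝ := K * (∏ i, (2 : ℝ) ^ (N i - k)) * ((2 : ℝ) ^ r) ^ ε' with hD
  have hD0 : 0 ≤ D := by positivity
  refine ⟨(∏ i, C0 i) * D, ?_⟩
  intro T hT
  have hT0 : 0 < T := by linarith
  let X : ι → ℕ := fun i => ⌊T ^ (1 / l i)⌋₊
  have hX1 : ∀ i, 1 ≤ X i := by
    intro i
    show 1 ≤ ⌊T ^ (1 / l i)⌋₊
    rw [Nat.one_le_floor_iff]
    exact Real.one_le_rpow hT (by have := hl i; positivity)
  set P : Finset (Vec N ℤ) := (box X).filter fun x => x ∈ Pts a l T with hP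
  have hht : ∀ x ∈ Pts a l T, ∀ i, (1 : ℝ) ≤ ht (x i) := by
    intro x hx i
    exact_mod_cast ht_pos (rep_ne (hx.1 i))
  have hroot : ∀ x ∈ Pts a l T, ∀ i, ht (x i) ≤ X i := by
    intro x hx i
    apply Nat.le_floor
    have h1 : (ht (x i) : ℝ) ^ l i ≤ T := by
      refine le_trans ?_ hx.2.2.2
      rw [← Finset.mul_prod_erase univ _ (mem_univ i)]
      have h2 := Finset.prod_le_prod (s := univ.erase i) (f := fun _ => (1 : ℝ))
        (g := fun j => (ht (x j) : ℝ) ^ l j) (fun _ _ => zero_le_one)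
        fun j _ => Real.one_le_rpow (hht x hx j) (hl j).le
      rw [Finset.prod_const_one] at h2
      exact le_mul_of_one_le_right (by positivity) h2
    have e3 : ((ht (x i) : ℝ) ^ l i) ^ (1 / l i) ≤ T ^ (1 / l i) :=
      Real.rpow_le_rpow (by positivity) h1 (by have := hl i; positivity)
    rwa [← Real.rpow_mul (by positivity), mul_one_div_cancel (hl i).ne', Real.rpow_one] at e3
  have hset : Pts a l T = ↑P := by
    ext x
    rw [hP, mem_coe, mem_filter, mem_box]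
    exact ⟨fun h => ⟨hroot x h, h⟩, fun h => h.2⟩
  rw [hset]
  refine ⟨P.finite_toSet, ?_⟩
  rw [Set.ncard_coe_finset]
  have hPm : ∀ x ∈ P, x ∈ Pts a l T := fun x hx => by
    rw [hP, mem_filter] at hx
    exact hx.2
  let L : ι → ℕ := fun i => Nat.log 2 (2 * X i)
  set J : Finset (ι → ℕ) := Fintype.piFinset fun i => range (L i + 1) with hJ
  have hcov : P ⊆ J.biUnion fun j => P.filter fun x => ∀ i, dy (x i) = j i := by
    intro x hx
    have hx' := hPm x hx
    rw [mem_biUnion]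
    refine ⟨fun i => dy (x i), ?_, ?_⟩
    · rw [hJ, Fintype.mem_piFinset]
      intro i
      rw [mem_range]
      apply Nat.lt_succ_of_le
      apply Nat.le_log_of_pow_le (by norm_num)
      exact ((dy_spec (ht_pos (rep_ne (hx'.1 i)))).2).trans
        (Nat.mul_le_mul_left _ (hroot x hx' i))
    · rw [mem_filter]
      exact ⟨hx, fun _ => rfl⟩
  have hlev : ∀ j ∈ J, (((P.filter fun x => ∀ i, dy (x i) = j i).card : ℕ) : ℝ) ≤
      D * T ^ (α + ε / 2) := by
    intro j _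
    set Q := P.filter fun x => ∀ i, dy (x i) = j i with hQ
    rcases Q.eq_empty_or_nonempty with h0 | ⟨s, hs⟩
    · rw [h0]
      simp only [card_empty, Nat.cast_zero]
      positivity
    have hmem : ∀ x ∈ Q, x ∈ Pts a l T ∧ ∀ i, dy (x i) = j i := by
      intro x hx
      rw [hQ, mem_filter] at hx
      exact ⟨hPm x hx.1, hx.2⟩
    have hsub : Q ⊆ S a (fun i => 2 ^ j i) := by
      intro x hx
      obtain ⟨h1, h2⟩ := hmem x hx
      unfold S
      rw [mem_filter, mem_box]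
      refine ⟨fun i => ?_, h1.2.1, h1.2.2.1⟩
      have d1 := (dy_spec (ht_pos (rep_ne (h1.1 i)))).1
      rwa [h2 i] at d1
    obtain ⟨s1, s2⟩ := hmem s hs
    have n1 := hht s s1
    have h3 : ∀ i, ((2 ^ j i : ℕ) : ℝ) ≤ 2 * ht (s i) := by
      intro i
      have := (dy_spec (ht_pos (rep_ne (s1.1 i)))).2
      rw [s2 i] at this
      exact_mod_cast this
    have h5 : ∏ i, (ht (s i) : ℝ) ^ (N i - k) ≤ T ^ α := by
      calc ∏ i, (ht (s i) : ℝ) ^ (N i - k) ≤ ∏ i, ((ht (s i) : ℝ) ^ l i) ^ α := by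
            refine Finset.prod_le_prod (fun _ _ => by positivity) fun i _ => ?_
            rw [← Real.rpow_mul (by positivity), ← Real.rpow_natCast]
            refine Real.rpow_le_rpow_of_exponent_le (n1 i) ?_
            rw [Nat.cast_sub (hkN i).le, mul_comm]
            exact hfuj i
        _ = (∏ i, (ht (s i) : ℝ) ^ l i) ^ α := by
            rw [Real.finsetProd_rpow _ _ fun i _ => by positivity]
        _ ≤ T ^ α := Real.rpow_le_rpow (by positivity) s1.2.2.2 hα0.le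
    have h6 : (∏ i, (ht (s i) : ℝ)) ^ ε' ≤ T ^ (ε / 2) := by
      calc (∏ i, (ht (s i) : ℝ)) ^ ε' = ∏ i, (ht (s i) : ℝ) ^ ε' := by
            rw [Real.finsetProd_rpow _ _ fun i _ => by positivity]
        _ ≤ ∏ i, ((ht (s i) : ℝ) ^ l i) ^ (ε / 2) := by
            refine Finset.prod_le_prod (fun _ _ => by positivity) fun i _ => ?_
            rw [← Real.rpow_mul (by positivity)]
            refine Real.rpow_le_rpow_of_exponent_le (n1 i) ?_
            rw [hε', mul_div_assoc]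
            have := hi0 i
            gcongr
        _ = (∏ i, (ht (s i) : ℝ) ^ l i) ^ (ε / 2) := by
            rw [Real.finsetProd_rpow _ _ fun i _ => by positivity]
        _ ≤ T ^ (ε / 2) := Real.rpow_le_rpow (by positivity) s1.2.2.2 (by positivity)
    have h7 : ∏ i, ((2 ^ j i : ℕ) : ℝ) ^ (N i - k) ≤
        (∏ i, (2 : ℝ) ^ (N i - k)) * ∏ i, (ht (s i) : ℝ) ^ (N i - k) := by
      rw [← Finset.prod_mul_distrib]
      refine Finset.prod_le_prod (fun _ _ => by positivity) fun i _ => ?_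
      rw [← mul_pow]
      exact pow_le_pow_left₀ (by positivity) (h3 i) _
    have h8 : ∏ i, ((2 ^ j i : ℕ) : ℝ) ≤ 2 ^ r * ∏ i, (ht (s i) : ℝ) := by
      calc ∏ i, ((2 ^ j i : ℕ) : ℝ) ≤ ∏ i, (2 * (ht (s i) : ℝ)) :=
            Finset.prod_le_prod (fun _ _ => by positivity) fun i _ => h3 i
        _ = _ := by rw [Finset.prod_mul_distrib, Finset.prod_const, Finset.card_univ]
    calc (Q.card : ℝ) ≤ ((S a (fun i => 2 ^ j i)).card : ℝ) := by
          exact_mod_cast card_le_card hsub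
      _ ≤ K * (∏ i, ((2 ^ j i : ℕ) : ℝ) ^ (N i - k)) * (∏ i, ((2 ^ j i : ℕ) : ℝ)) ^ ε' :=
          hK _ fun i => Nat.one_le_two_pow
      _ ≤ K * ((∏ i, (2 : ℝ) ^ (N i - k)) * ∏ i, (ht (s i) : ℝ) ^ (N i - k)) *
          (2 ^ r * ∏ i, (ht (s i) : ℝ)) ^ ε' := by
          gcongr
      _ = D * ((∏ i, (ht (s i) : ℝ) ^ (N i - k)) * (∏ i, (ht (s i) : ℝ)) ^ ε') := by
          rw [Real.mul_rpow (by positivity) (by positivity), hD]
          ring
      _ ≤ D * (T ^ α * T ^ (ε / 2)) := by gcongr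
      _ = D * T ^ (α + ε / 2) := by rw [Real.rpow_add hT0]
  have hLb : ∀ i, ((L i : ℝ) + 1) ≤ C0 i * T ^ δ := fun i =>
    log_bound (l i) T (hl i) hT δ hδ0 (X i) (hX1 i) (Nat.floor_le (by positivity))
  calc (P.card : ℝ) ≤ ∑ j ∈ J, (((P.filter fun x => ∀ i, dy (x i) = j i).card : ℕ) : ℝ) := by
        have h1 := (Finset.card_le_card hcov).trans Finset.card_biUnion_le
        exact_mod_cast h1
    _ ≤ ∑ j ∈ J, D * T ^ (α + ε / 2) := Finset.sum_le_sum hlev
    _ = (∏ i, ((L i : ℝ) + 1)) * (D * T ^ (α + ε / 2)) := by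
        rw [Finset.sum_const, hJ, Fintype.card_piFinset, nsmul_eq_mul]
        simp only [card_range]
        push_cast
        rfl
    _ ≤ (∏ i, (C0 i * T ^ δ)) * (D * T ^ (α + ε / 2)) := by
        gcongr with i
        exact hLb i
    _ = (∏ i, C0 i) * D * (T ^ (α + ε / 2) * (T ^ δ) ^ r) := by
        rw [Finset.prod_mul_distrib, Finset.prod_const, Finset.card_univ]
        ring
    _ = (∏ i, C0 i) * D * T ^ (α + ε) := by
        rw [← Real.rpow_natCast (T ^ δ), ← Real.rpow_mul hT0.le, ← Real.rpow_add hT0]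
        congr 2
        rw [hδ]
        field_simp
        ring

end Pool.Agent.X324.ML
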