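import Pool.Agent.X324.ML.Core

/-! The open set contains an integer point. -/

namespace Pool.Agent.X324.ML

open Finset Matrix Module
open Pool.Agent.H548.WM (ht bx mem_bx le_ht' ht_le card_bx card_bx_le)

/-- A bound for the entries. -/
def cW {k n m : ℕ} (W : Fin k → Matrix (Fin n) (Fin m) ℤ) : ℕ :=
  ∑ c, ∑ p, ∑ q, (W c p q).natAbs + 1

theorem ht_mulVec {k n m : ℕ} (W : Fin k → Matrix (Fin n) (Fin m) ℤ) (c : Fin k)
    (y : Fin m → ℤ) (ρ : ℕ) (hy : ht y ≤ ρ) : ht (W c *ᵥ y) ≤ cW W * ρ := by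
  refine ht_le fun p => ?_
  have h1 : |(W c *ᵥ y) p| ≤ ∑ q, |W c p q * y q| := by
    show |∑ q, W c p q * y q| ≤ _
    exact Finset.abs_sum_le_sum_abs _ _
  have h2 : ∑ q, |W c p q * y q| ≤ ∑ q, ((W c p q).natAbs : ℤ) * ρ := by
    refine Finset.sum_le_sum fun q _ => ?_
    rw [abs_mul]
    have h3 : |y q| ≤ (ρ : ℤ) := (le_ht' y q).trans (by exact_mod_cast hy)
    rw [Int.natCast_natAbs]
    gcongr
  rw [← Finset.sum_mul] at h2
  have h4 : ∑ q, (W c p q).natAbs ≤ cW W := by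
    have h5 : ∑ q, (W c p q).natAbs ≤ ∑ p, ∑ q, (W c p q).natAbs :=
      Finset.single_le_sum (f := fun p => ∑ q, (W c p q).natAbs) (fun _ _ => Nat.zero_le _)
        (mem_univ p)
    have h6 : ∑ p, ∑ q, (W c p q).natAbs ≤ ∑ c, ∑ p, ∑ q, (W c p q).natAbs :=
      Finset.single_le_sum (f := fun c => ∑ p, ∑ q, (W c p q).natAbs)
        (fun _ _ => Nat.zero_le _) (mem_univ c)
    unfold cW
    omega
  have h7 : (∑ q, ((W c p q).natAbs : ℤ)) ≤ (cW W : ℤ) := by exact_mod_cast h4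
  push_cast
  calc |(W c *ᵥ y) p| ≤ (∑ q, ((W c p q).natAbs : ℤ)) * ρ := h1.trans h2
    _ ≤ (cW W : ℤ) * ρ := by gcongr

open Classical in
theorem card_dep_le {k m n : ℕ} (hk : 1 ≤ k) (W : Fin k → Matrix (Fin n) (Fin m) ℤ) (R : ℕ)
    (hR : ∀ s : Fin k → ℤ, s ≠ 0 → R ≤ ((∑ c, s c • W c).map (Int.cast : ℤ → ℝ)).rank) :
    ∃ C : ℝ, 0 ≤ C ∧ ∀ ρ : ℕ, 1 ≤ ρ →
      (((bx m ρ).filter fun y => ¬ LinearIndependent ℤ fun c => W c *ᵥ y).card : ℝ) ≤
      C * (ρ : ℝ) ^ ((k - 1) * k + (m - R)) := by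
  refine ⟨(3 * (3 ^ n * (3 * k * cW W) ^ (k - 1))) ^ k * (3 ^ m * 3 ^ (m - R)), by positivity,
    fun ρ hρ => ?_⟩
  have hc1 : 1 ≤ cW W := by unfold cW; omega
  refine (card_dep hk W R hR ρ (cW W * ρ) hρ (Nat.mul_pos hc1 hρ)
    fun c y hy => ht_mulVec W c y ρ hy).trans (le_of_eq ?_)
  unfold Hb
  push_cast
  rw [show (3 * (k : ℝ) * (cW W * ρ)) = (3 * k * cW W) * ρ by ring, mul_pow _ (ρ : ℝ) (k - 1),
    mul_pow 3 (ρ : ℝ) (m - R), pow_add, pow_mul]
  ring

open Classical in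
/-- A vector which satisfies `k` linear equations and for which the images under several families
of matrices are independent. -/
theorem exists_good {κ : Type} {k m : ℕ} (hk : 1 ≤ k) (n : κ → ℕ) (w : Fin k → Fin m → ℤ)
    (W : ∀ j : κ, Fin k → Matrix (Fin (n j)) (Fin m) ℤ) (R : ℕ) (hRm : R ≤ m)
    (hRk : k ^ 2 < R) (s : Finset κ)
    (hR : ∀ j ∈ s, ∀ t : Fin k → ℤ, t ≠ 0 →
      R ≤ ((∑ c, t c • W j c).map (Int.cast : ℤ → ℝ)).rank) :
    ∃ v : Fin m → ℤ, (∀ c, w c ⬝ᵥ v = 0) ∧ ∀ j ∈ s, LinearIndependent ℤ fun c => W j c *ᵥ v := by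
  by_contra hcon
  push Not at hcon
  set b := (k - 1) * k + (m - R) with hb
  have hC : ∀ j : κ, ∃ C : ℝ, 0 ≤ C ∧ (j ∈ s → ∀ ρ : ℕ, 1 ≤ ρ →
      (((bx m ρ).filter fun y => ¬ LinearIndependent ℤ fun c => W j c *ᵥ y).card : ℝ) ≤
      C * (ρ : ℝ) ^ b) := by
    intro j
    by_cases hj : j ∈ s
    · obtain ⟨C, h1, h2⟩ := card_dep_le hk (W j) R (hR j hj)
      exact ⟨C, h1, fun _ => h2⟩
    · exact ⟨0, le_rfl, fun h => absurd h hj⟩
  choose C hC0 hC using hC
  -- the linear forms as a matrix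
  let M : Fin 1 → Matrix (Fin k) (Fin m) ℤ := fun _ => Matrix.of w
  have hM : ∀ v : Fin m → ℤ, M 0 *ᵥ v = fun c => w c ⬝ᵥ v := fun v => rfl
  set D : ℝ := (∑ j ∈ s, C j) * 2 ^ b * (3 * cW M) ^ k with hD
  have hD0 : 0 ≤ D := by
    have : 0 ≤ ∑ j ∈ s, C j := Finset.sum_nonneg fun j _ => hC0 j
    positivity
  have key : ∀ ρ : ℕ, 1 ≤ ρ → (ρ : ℝ) ≤ D := by
    intro ρ hρ
    have hρ1 : (1 : ℝ) ≤ ρ := by exact_mod_cast hρ
    have hρ0 : (0 : ℝ) < ρ := by linarith
    set Z := (bx m (2 * ρ)).filter fun v => ∃ j ∈ s, ¬ LinearIndependent ℤ fun c => W j c *ᵥ v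
      with hZ
    have hZc : (Z.card : ℝ) ≤ (∑ j ∈ s, C j) * 2 ^ b * (ρ : ℝ) ^ b := by
      have h1 : Z ⊆ s.biUnion fun j => (bx m (2 * ρ)).filter fun v =>
          ¬ LinearIndependent ℤ fun c => W j c *ᵥ v := by
        intro v hv
        rw [hZ, mem_filter] at hv
        obtain ⟨hv1, j, hj, hv2⟩ := hv
        rw [mem_biUnion]
        exact ⟨j, hj, mem_filter.2 ⟨hv1, hv2⟩⟩
      calc (Z.card : ℝ) ≤ ((s.biUnion fun j => (bx m (2 * ρ)).filter fun v =>
          ¬ LinearIndependent ℤ fun c => W j c *ᵥ v).card : ℝ) := by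
            exact_mod_cast card_le_card h1
        _ ≤ ∑ j ∈ s, (((bx m (2 * ρ)).filter fun v =>
          ¬ LinearIndependent ℤ fun c => W j c *ᵥ v).card : ℝ) := by
            exact_mod_cast card_biUnion_le
        _ ≤ ∑ j ∈ s, C j * ((2 * ρ : ℕ) : ℝ) ^ b :=
            Finset.sum_le_sum fun j hj => hC j hj (2 * ρ) (by omega)
        _ = _ := by
            rw [← Finset.sum_mul]
            push_cast
            rw [mul_pow]
            ring
    let φ : (Fin m → ℤ) → (Fin k → ℤ) := fun v => M 0 *ᵥ v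
    have hmaps : ∀ v ∈ bx m ρ, φ v ∈ bx k (cW M * ρ) := by
      intro v hv
      rw [mem_bx] at hv ⊢
      exact ht_mulVec M 0 v ρ hv
    have hfib : ∀ b ∈ bx k (cW M * ρ), ((bx m ρ).filter fun v => φ v = b).card ≤ Z.card := by
      intro b _
      rcases ((bx m ρ).filter fun v => φ v = b).eq_empty_or_nonempty with h0 | ⟨v0, hv0⟩
      · rw [h0, card_empty]
        exact Nat.zero_le _
      rw [mem_filter, mem_bx] at hv0
      refine Finset.card_le_card_of_injOn (fun v => v - v0) ?_ ?_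
      · intro v hv
        rw [mem_coe, mem_filter, mem_bx] at hv
        have h1 : φ (v - v0) = 0 := by
          show M 0 *ᵥ (v - v0) = 0
          rw [mulVec_sub]
          show φ v - φ v0 = 0
          rw [hv.2, hv0.2, sub_self]
        have h2 : ∀ c, w c ⬝ᵥ (v - v0) = 0 := by
          intro c
          have := congrFun h1 c
          exact this
        obtain ⟨j, hj, hj2⟩ := hcon (v - v0) h2
        rw [mem_coe, hZ, mem_filter, mem_bx]
        refine ⟨ht_le fun p => ?_, j, hj, hj2⟩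
        have h3 := le_ht' v p
        have h4 := le_ht' v0 p
        have h5 : (ht v : ℤ) ≤ ρ := by exact_mod_cast hv.1
        have h6 : (ht v0 : ℤ) ≤ ρ := by exact_mod_cast hv0.1
        have h7 := abs_sub (v p) (v0 p)
        show |v p - v0 p| ≤ _
        push_cast
        linarith
      · intro v _ v' _ he
        exact sub_left_injective he
    have h1 := Finset.card_le_mul_card_image_of_maps_to hmaps Z.card hfib
    have hc1 : 1 ≤ cW M := by unfold cW; omega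
    have h2 : ((bx m ρ).card : ℝ) ≤ Z.card * (bx k (cW M * ρ)).card := by exact_mod_cast h1
    have h3 : (ρ : ℝ) ^ m ≤ (bx m ρ).card := by
      rw [card_bx]
      push_cast
      gcongr
      linarith
    have h4 := card_bx_le k (X := cW M * ρ) (Nat.mul_pos hc1 hρ)
    have h5 : (ρ : ℝ) ^ m ≤ D * (ρ : ℝ) ^ (b + k) := by
      have hs0 : 0 ≤ ∑ j ∈ s, C j := Finset.sum_nonneg fun j _ => hC0 j
      calc (ρ : ℝ) ^ m ≤ (bx m ρ).card := h3
        _ ≤ Z.card * (bx k (cW M * ρ)).card := h2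
        _ ≤ ((∑ j ∈ s, C j) * 2 ^ b * (ρ : ℝ) ^ b) * (3 * ((cW M * ρ : ℕ) : ℝ)) ^ k := by
            gcongr
        _ = D * (ρ : ℝ) ^ (b + k) := by
            push_cast
            rw [show (3 * ((cW M : ℝ) * ρ)) = (3 * cW M) * ρ by ring, mul_pow _ (ρ : ℝ) k, hD,
              pow_add]
            ring
    have h6 : b + k + 1 ≤ m := by
      have : (k - 1) * k + k = k ^ 2 := by
        obtain ⟨k', rfl⟩ : ∃ k', k = k' + 1 := ⟨k - 1, by omega⟩
        rw [Nat.add_sub_cancel]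
        ring
      omega
    have h7 : (ρ : ℝ) ^ (b + k) * ρ ≤ (ρ : ℝ) ^ m := by
      rw [← pow_succ]
      exact pow_le_pow_right₀ hρ1 h6
    have h8 : (ρ : ℝ) ^ (b + k) * ρ ≤ (ρ : ℝ) ^ (b + k) * D := by linarith
    exact le_of_mul_le_mul_left h8 (by positivity)
  have := key (⌈D⌉₊ + 1) (by omega)
  have h2 : D ≤ ⌈D⌉₊ := Nat.le_ceil D
  push_cast at this
  linarith

variable {ι : Type} [Fintype ι] [DecidableEq ι] {N : ι → ℕ} {k : ℕ}

theorem RankCond.le {a : Fin k → (∀ i, Fin (N i)) → ℤ} {R : ℕ} (h : RankCond a R) (hk : 1 ≤ k)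
    (hr : 2 ≤ Fintype.card ι) (hN : ∀ i, 1 ≤ N i) (i : ι) : R ≤ N i := by
  obtain ⟨j, hj⟩ : ∃ j, j ≠ i := by
    have : Nontrivial ι := Fintype.one_lt_card_iff_nontrivial.1 (by omega)
    exact exists_ne i
  refine (h (Pi.single ⟨0, hk⟩ 1) ?_ (fun _ _ => 1) ?_ i j hj.symm).trans ?_
  · intro h0
    have := congrFun h0 ⟨0, hk⟩
    rw [Pi.single_eq_same] at this
    exact one_ne_zero this
  · intro l h0
    have := congrFun h0 ⟨0, hN l⟩
    exact one_ne_zero this
  · refine (Matrix.rank_le_card_height _).trans ?_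
    rw [Fintype.card_fin]

/-- **There is an integer point.** -/
theorem nonempty {a : Fin k → (∀ i, Fin (N i)) → ℤ} (hk : 1 ≤ k) {R : ℕ} (hR : RankCond a R)
    (hr : 2 ≤ Fintype.card ι) (hRk : k ^ 2 < R) (hN : ∀ i, 1 ≤ N i) :
    ∃ x : Vec N ℤ, (∀ i, x i ≠ 0) ∧ (∀ c, mf (a c) x = 0) ∧ ∀ i, LI a x i := by
  have hRN := hR.le hk hr hN
  have hnt : Nontrivial ι := Fintype.one_lt_card_iff_nontrivial.1 (by omega)
  obtain ⟨i⟩ := (inferInstance : Nonempty ι)
  obtain ⟨j, hj⟩ := exists_ne i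
  let e : Vec N ℤ := fun _ _ => 1
  have he : ∀ l, e l ≠ 0 := fun l h0 => one_ne_zero (congrFun h0 ⟨0, hN l⟩)
  obtain ⟨v, -, hv⟩ := exists_good (κ := Unit) hk (fun _ => N i) (fun _ _ => (0 : ℤ))
    (fun _ c => sl (a c) e i j) R (hRN j) hRk {()} (fun _ _ t ht => hR t ht e he i j hj.symm)
  have hv' := hv () (mem_singleton_self _)
  set x1 := Function.update e j v with hx1
  have hLI1 : LI a x1 i := by
    unfold LI
    have : (fun c => gr (a c) x1 i) = fun c => sl (a c) e i j *ᵥ v := by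
      funext c
      exact gr_update (a c) e hj.symm v
    rw [this]
    exact hv'
  have hx1n : ∀ l, x1 l ≠ 0 := by
    intro l
    by_cases hl : l = j
    · subst hl
      intro h0
      exact hLI1.ne_zero ⟨0, hk⟩ (gr_zero _ _ hj.symm h0)
    · rw [hx1, Function.update_of_ne hl]
      exact he l
  obtain ⟨v', hv'1, hv'2⟩ := exists_good (κ := ι) hk N (fun c => gr (a c) x1 i)
    (fun j' c => sl (a c) x1 j' i) R (hRN i) hRk (univ.erase i)
    (fun j' hj' t ht => hR t ht x1 hx1n j' i (Finset.ne_of_mem_erase hj'))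
  have hLI2 : ∀ l, LI a (Function.update x1 i v') l := by
    intro l
    by_cases hl : l = i
    · subst hl
      exact (LI_update v').2 hLI1
    · unfold LI
      have : (fun c => gr (a c) (Function.update x1 i v') l) =
          fun c => sl (a c) x1 l i *ᵥ v' := by
        funext c
        exact gr_update (a c) x1 hl v'
      rw [this]
      exact hv'2 l (Finset.mem_erase.2 ⟨hl, mem_univ l⟩)
  refine ⟨Function.update x1 i v', ?_, ?_, hLI2⟩
  · intro l
    by_cases hl : l = i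
    · subst hl
      intro h0
      exact (hLI2 j).ne_zero ⟨0, hk⟩ (gr_zero _ _ hj h0)
    · rw [Function.update_of_ne hl]
      exact hx1n l
  · intro c
    rw [mf_update]
    exact hv'1 c

end Pool.Agent.X324.ML
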