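import Mathlib

/-! Fewer than `p + q - 1` bilinear forms in `p` and `q` variables over an algebraically closed
field have a common zero with both vectors nonzero. -/

namespace Pool.Agent.X324.ML.BZ

open MvPolynomial

/-- The weights of the variables. -/
def w (Y Z : Type) : Y ⊕ Z → ℤ := Sum.elim (fun _ => 1) (fun _ => -1)

/-- The ring of the balanced polynomials. -/
noncomputable def S (K Y Z : Type) [Field K] : Subalgebra K (MvPolynomial (Y ⊕ Z) K) where
  carrier := {f | IsWeightedHomogeneous (w Y Z) f 0}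
  mul_mem' := by
    intro a b ha hb
    simpa using IsWeightedHomogeneous.mul ha hb
  add_mem' := fun ha hb => IsWeightedHomogeneous.add ha hb
  algebraMap_mem' := fun r => isWeightedHomogeneous_C _ r

variable {K : Type} [Field K] {Y Z : Type}

/-- The balanced part. -/
noncomputable def rey (f : MvPolynomial (Y ⊕ Z) K) : S K Y Z :=
  ⟨weightedHomogeneousComponent (w Y Z) 0 f,
    weightedHomogeneousComponent_isWeightedHomogeneous 0 f⟩

theorem rey_add (f g : MvPolynomial (Y ⊕ Z) K) : rey (f + g) = rey f + rey g :=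
  Subtype.ext (map_add _ f g)

theorem rey_coe (a : S K Y Z) : rey (a : MvPolynomial (Y ⊕ Z) K) = a :=
  Subtype.ext (IsWeightedHomogeneous.weightedHomogeneousComponent_same a.2)

theorem rey_mul (a : S K Y Z) (f : MvPolynomial (Y ⊕ Z) K) :
    rey ((a : MvPolynomial (Y ⊕ Z) K) * f) = a * rey f := by
  classical
  let _ := weightedGradedAlgebra K (w Y Z)
  have h := DirectSum.coe_decompose_mul_of_left_mem_zero
    (𝒜 := weightedHomogeneousSubmodule K (w Y Z)) (a := (a : MvPolynomial (Y ⊕ Z) K)) (b := f)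
    (j := 0) a.2
  have h1 : ∀ g : MvPolynomial (Y ⊕ Z) K,
      (DirectSum.decompose (weightedHomogeneousSubmodule K (w Y Z)) g 0 :
        MvPolynomial (Y ⊕ Z) K) = weightedHomogeneousComponent (w Y Z) 0 g := fun g =>
    weightedDecomposition.decompose'_apply K (w Y Z) g 0
  rw [h1, h1] at h
  exact Subtype.ext h

/-- The extension of an ideal of the ring of balanced polynomials contracts to the ideal. -/
theorem mem_of_mem_map (I : Ideal (S K Y Z)) (x : S K Y Z)
    (hx : (x : MvPolynomial (Y ⊕ Z) K) ∈ I.map (algebraMap (S K Y Z) (MvPolynomial (Y ⊕ Z) K))) :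
    x ∈ I := by
  have key : ∀ f ∈ I.map (algebraMap (S K Y Z) (MvPolynomial (Y ⊕ Z) K)),
      ∀ t : MvPolynomial (Y ⊕ Z) K, rey (f * t) ∈ I := by
    intro f hf
    unfold Ideal.map at hf
    refine Submodule.span_induction (p := fun f _ => ∀ t : MvPolynomial (Y ⊕ Z) K,
      rey (f * t) ∈ I) ?_ ?_ ?_ ?_ hf
    · rintro _ ⟨a, ha, rfl⟩ t
      have : rey ((algebraMap (S K Y Z) (MvPolynomial (Y ⊕ Z) K)) a * t) = a * rey t :=
        rey_mul a t
      rw [this]
      exact I.mul_mem_right _ ha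
    · intro t
      have : rey ((0 : MvPolynomial (Y ⊕ Z) K) * t) = 0 := by
        rw [zero_mul]
        exact Subtype.ext (map_zero _)
      rw [this]
      exact I.zero_mem
    · intro f g _ _ hf hg t
      rw [add_mul, rey_add]
      exact I.add_mem (hf t) (hg t)
    · intro r f _ hf t
      have : (r • f) * t = f * (r * t) := by
        rw [smul_eq_mul]
        ring
      rw [this]
      exact hf _
  have := key x hx 1
  rwa [mul_one, rey_coe] at this

theorem noeth [Finite Y] [Finite Z] : IsNoetherianRing (S K Y Z) := by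
  have hinj : Function.Injective
      (fun I : Ideal (S K Y Z) => I.map (algebraMap (S K Y Z) (MvPolynomial (Y ⊕ Z) K))) := by
    intro I J h
    simp only at h
    apply le_antisymm
    · intro x hx
      apply mem_of_mem_map J x
      rw [← h]
      exact Ideal.mem_map_of_mem (algebraMap (S K Y Z) (MvPolynomial (Y ⊕ Z) K)) hx
    · intro x hx
      apply mem_of_mem_map I x
      rw [h]
      exact Ideal.mem_map_of_mem (algebraMap (S K Y Z) (MvPolynomial (Y ⊕ Z) K)) hx
  have hmono : StrictMono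
      (fun I : Ideal (S K Y Z) => I.map (algebraMap (S K Y Z) (MvPolynomial (Y ⊕ Z) K))) :=
    Monotone.strictMono_of_injective (fun _ _ h => Ideal.map_mono h) hinj
  have : WellFoundedGT (Ideal (S K Y Z)) := hmono.wellFoundedGT
  rw [isNoetherianRing_iff, isNoetherian_iff']
  exact this

/-- Some variables are replaced by zero. -/
noncomputable def phi (K : Type) [Field K] {Y Z : Type} [DecidableEq (Y ⊕ Z)]
    (A : Finset (Y ⊕ Z)) : MvPolynomial (Y ⊕ Z) K →ₐ[K] MvPolynomial (Y ⊕ Z) K :=
  aeval fun v => if v ∈ A then 0 else X v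

theorem phi_phi [DecidableEq (Y ⊕ Z)] {A A' : Finset (Y ⊕ Z)} (h : A ⊆ A')
    (f : MvPolynomial (Y ⊕ Z) K) : phi K A' (phi K A f) = phi K A' f := by
  have : (phi K A').comp (phi K A) = phi K A' := by
    apply MvPolynomial.algHom_ext
    intro v
    rw [AlgHom.comp_apply]
    unfold phi
    rw [aeval_X]
    by_cases hv : v ∈ A
    · rw [if_pos hv, map_zero, aeval_X, if_pos (h hv)]
    · rw [if_neg hv]
  exact DFunLike.congr_fun this f

/-- The prime ideals of the chain. -/
noncomputable def P (K : Type) [Field K] {Y Z : Type} [DecidableEq (Y ⊕ Z)]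
    (A : Finset (Y ⊕ Z)) : Ideal (S K Y Z) :=
  RingHom.ker ((phi K A).comp (S K Y Z).val)

instance [DecidableEq (Y ⊕ Z)] (A : Finset (Y ⊕ Z)) : (P K A).IsPrime := by
  unfold P
  exact RingHom.ker_isPrime ((phi K A).comp (S K Y Z).val).toRingHom

theorem mem_P [DecidableEq (Y ⊕ Z)] {A : Finset (Y ⊕ Z)} {f : S K Y Z} :
    f ∈ P K A ↔ phi K A (f : MvPolynomial (Y ⊕ Z) K) = 0 := Iff.rfl

theorem P_mono [DecidableEq (Y ⊕ Z)] {A A' : Finset (Y ⊕ Z)} (h : A ⊆ A') : P K A ≤ P K A' := by
  intro f hf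
  rw [mem_P] at hf ⊢
  rw [← phi_phi h, hf, map_zero]

/-- The products of two variables. -/
noncomputable def g (K : Type) [Field K] {Y Z : Type} (i : Y) (j : Z) : S K Y Z :=
  ⟨X (Sum.inl i) * X (Sum.inr j), by
    have h := IsWeightedHomogeneous.mul
      (isWeightedHomogeneous_X K (w Y Z) (Sum.inl i)) (isWeightedHomogeneous_X K (w Y Z) (Sum.inr j))
    have h0 : w Y Z (Sum.inl i) + w Y Z (Sum.inr j) = 0 := by simp [w]
    rw [h0] at h
    exact h⟩

theorem g_mem_P [DecidableEq (Y ⊕ Z)] {A : Finset (Y ⊕ Z)} {i : Y} {j : Z} :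
    g K i j ∈ P K A ↔ Sum.inl i ∈ A ∨ Sum.inr j ∈ A := by
  rw [mem_P]
  show phi K A (X (Sum.inl i) * X (Sum.inr j)) = 0 ↔ _
  unfold phi
  rw [map_mul, aeval_X, aeval_X, mul_eq_zero]
  constructor
  · rintro (h | h)
    · left
      by_contra hc
      rw [if_neg hc] at h
      exact X_ne_zero _ h
    · right
      by_contra hc
      rw [if_neg hc] at h
      exact X_ne_zero _ h
  · rintro (h | h)
    · left; rw [if_pos h]
    · right; rw [if_pos h]

theorem height_P [DecidableEq (Y ⊕ Z)] (i0 : Y) (j0 : Z) (A : Finset (Y ⊕ Z)) :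
    Sum.inl i0 ∉ A → Sum.inr j0 ∉ A → (A.card : ℕ∞) ≤ (P K A).height := by
  induction A using Finset.induction with
  | empty => intro _ _; simp
  | insert v A hv ih =>
    intro h1 h2
    rw [Finset.mem_insert, not_or] at h1 h2
    have h3 := ih h1.2 h2.2
    have hlt : P K A < P K (insert v A) := by
      refine lt_of_le_of_ne (P_mono (Finset.subset_insert v A)) fun he => ?_
      rcases v with i | j
      · have e1 : g K i j0 ∈ P K (insert (Sum.inl i) A) :=
          g_mem_P.2 (Or.inl (Finset.mem_insert_self _ _))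
        rw [← he, g_mem_P] at e1
        rcases e1 with e | e
        · exact hv e
        · exact h2.2 e
      · have e1 : g K i0 j ∈ P K (insert (Sum.inr j) A) :=
          g_mem_P.2 (Or.inr (Finset.mem_insert_self _ _))
        rw [← he, g_mem_P] at e1
        rcases e1 with e | e
        · exact h1.2 e
        · exact hv e
    have h4 := Ideal.height_add_one_le_of_lt_of_isPrime hlt
    rw [Finset.card_insert_of_notMem hv]
    push_cast
    exact (add_le_add_left h3 1).trans h4

theorem height_univ [Fintype Y] [Fintype Z] [DecidableEq (Y ⊕ Z)] [Nonempty Y] [Nonempty Z] :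
    ((Fintype.card Y + Fintype.card Z - 1 : ℕ) : ℕ∞) ≤
      (P K (Finset.univ : Finset (Y ⊕ Z))).height := by
  obtain ⟨i0⟩ := (inferInstance : Nonempty Y)
  obtain ⟨j0⟩ := (inferInstance : Nonempty Z)
  set A : Finset (Y ⊕ Z) := (Finset.univ.erase (Sum.inl i0)).erase (Sum.inr j0) with hA
  have h1 : Sum.inl i0 ∉ A := by simp [hA]
  have h2 : Sum.inr j0 ∉ A := by simp [hA]
  have h3 := height_P (K := K) i0 j0 A h1 h2
  have hlt : P K A < P K Finset.univ := by
    refine lt_of_le_of_ne (P_mono (Finset.subset_univ A)) fun he => ?_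
    have e1 : g K i0 j0 ∈ P K (Finset.univ : Finset (Y ⊕ Z)) :=
      g_mem_P.2 (Or.inl (Finset.mem_univ _))
    rw [← he, g_mem_P] at e1
    rcases e1 with e | e
    · exact h1 e
    · exact h2 e
  have h4 := Ideal.height_add_one_le_of_lt_of_isPrime hlt
  refine le_trans ?_ h4
  refine le_trans ?_ (add_le_add_left h3 1)
  have hc : A.card + 2 = Fintype.card Y + Fintype.card Z := by
    rw [hA, Finset.card_erase_of_mem, Finset.card_erase_of_mem (Finset.mem_univ _),
      Finset.card_univ, Fintype.card_sum]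
    · have h5 : 0 < Fintype.card Y := Fintype.card_pos
      have h6 : 0 < Fintype.card Z := Fintype.card_pos
      omega
    · simp
  have hc' : Fintype.card Y + Fintype.card Z - 1 = A.card + 1 := by omega
  rw [hc']
  push_cast
  exact le_rfl

theorem weight_eq [Fintype Y] [Fintype Z] (m : Y ⊕ Z →₀ ℕ) :
    Finsupp.weight (w Y Z) m = ∑ i, (m (Sum.inl i) : ℤ) - ∑ j, (m (Sum.inr j) : ℤ) := by
  rw [Finsupp.weight_apply, Finsupp.sum_fintype _ _ (fun _ => by simp), Fintype.sum_sum_type]
  simp [w, sub_eq_add_neg]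

theorem P_univ_le [Fintype Y] [Fintype Z] [DecidableEq (Y ⊕ Z)] (J : Ideal (S K Y Z))
    (hJ : ∀ i j, g K i j ∈ J) : P K (Finset.univ : Finset (Y ⊕ Z)) ≤ J := by
  intro f hf
  rw [mem_P] at hf
  have h0 : coeff 0 (f : MvPolynomial (Y ⊕ Z) K) = 0 := by
    have h1 : phi K (Finset.univ : Finset (Y ⊕ Z)) (f : MvPolynomial (Y ⊕ Z) K) =
        C (constantCoeff (f : MvPolynomial (Y ⊕ Z) K)) := by
      unfold phi
      have : (fun v : Y ⊕ Z => if v ∈ (Finset.univ : Finset (Y ⊕ Z)) then (0 : MvPolynomial (Y ⊕ Z) K)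
          else X v) = fun _ => 0 := by
        funext v
        rw [if_pos (Finset.mem_univ v)]
      rw [this, aeval_zero']
      rfl
    rw [h1, C_eq_zero] at hf
    exact hf
  have hmon : ∀ m : Y ⊕ Z →₀ ℕ, m ∈ (f : MvPolynomial (Y ⊕ Z) K).support →
      ∃ hm : monomial m (coeff m (f : MvPolynomial (Y ⊕ Z) K)) ∈ S K Y Z,
        (⟨_, hm⟩ : S K Y Z) ∈ J := by
    intro m hm
    rw [mem_support_iff] at hm
    have hwt : Finsupp.weight (w Y Z) m = 0 := f.2 hm
    have hm0 : m ≠ 0 := by
      rintro rfl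
      exact hm h0
    rw [weight_eq] at hwt
    have hex : ∃ v, m v ≠ 0 := by
      by_contra hc
      push Not at hc
      exact hm0 (Finsupp.ext hc)
    have hsum : 0 < ∑ i, (m (Sum.inl i) : ℤ) ∧ 0 < ∑ j, (m (Sum.inr j) : ℤ) := by
      have hn1 : 0 ≤ ∑ i, (m (Sum.inl i) : ℤ) := Finset.sum_nonneg fun _ _ => by positivity
      obtain ⟨v, hv⟩ := hex
      rcases v with i | j
      · have h2 : (m (Sum.inl i) : ℤ) ≤ ∑ i, (m (Sum.inl i) : ℤ) :=
          Finset.single_le_sum (f := fun i => (m (Sum.inl i) : ℤ)) (fun _ _ => by positivity)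
            (Finset.mem_univ i)
        have h3 : 0 < (m (Sum.inl i) : ℤ) := by exact_mod_cast Nat.pos_of_ne_zero hv
        constructor <;> linarith
      · have h2 : (m (Sum.inr j) : ℤ) ≤ ∑ j, (m (Sum.inr j) : ℤ) :=
          Finset.single_le_sum (f := fun j => (m (Sum.inr j) : ℤ)) (fun _ _ => by positivity)
            (Finset.mem_univ j)
        have h3 : 0 < (m (Sum.inr j) : ℤ) := by exact_mod_cast Nat.pos_of_ne_zero hv
        constructor <;> linarith
    obtain ⟨i, -, hi⟩ := Finset.exists_lt_of_sum_lt (f := fun _ : Y => (0 : ℤ))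
      (g := fun i => (m (Sum.inl i) : ℤ)) (s := Finset.univ) (by simpa using hsum.1)
    obtain ⟨j, -, hj⟩ := Finset.exists_lt_of_sum_lt (f := fun _ : Z => (0 : ℤ))
      (g := fun j => (m (Sum.inr j) : ℤ)) (s := Finset.univ) (by simpa using hsum.2)
    have hi' : 1 ≤ m (Sum.inl i) := by exact_mod_cast hi
    have hj' : 1 ≤ m (Sum.inr j) := by exact_mod_cast hj
    set e : Y ⊕ Z →₀ ℕ := Finsupp.single (Sum.inl i) 1 + Finsupp.single (Sum.inr j) 1 with he
    have hle : e ≤ m := by
      intro v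
      rw [he, Finsupp.add_apply]
      rcases v with a | b
      · by_cases ha : i = a
        · subst ha
          simpa using hi'
        · simp [ha]
      · by_cases hb : j = b
        · subst hb
          simpa using hj'
        · simp [hb]
    have hmem : monomial (m - e) (coeff m (f : MvPolynomial (Y ⊕ Z) K)) ∈ S K Y Z := by
      apply isWeightedHomogeneous_monomial
      have h5 : Finsupp.weight (w Y Z) (m - e) + Finsupp.weight (w Y Z) e =
          Finsupp.weight (w Y Z) m := by
        rw [← map_add, tsub_add_cancel_of_le hle]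
      have h6 : Finsupp.weight (w Y Z) e = 0 := by
        rw [he, map_add, Finsupp.weight_single, Finsupp.weight_single]
        simp [w]
      have h7 : Finsupp.weight (w Y Z) m = 0 := f.2 hm
      rw [h6, h7, add_zero] at h5
      exact h5
    have hprod : monomial m (coeff m (f : MvPolynomial (Y ⊕ Z) K)) =
        (g K i j : MvPolynomial (Y ⊕ Z) K) *
          monomial (m - e) (coeff m (f : MvPolynomial (Y ⊕ Z) K)) := by
      show _ = X (Sum.inl i) * X (Sum.inr j) * _
      rw [X, X, monomial_mul, monomial_mul, ← he, one_mul, one_mul, add_tsub_cancel_of_le hle]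
    have hm' : monomial m (coeff m (f : MvPolynomial (Y ⊕ Z) K)) ∈ S K Y Z := by
      rw [hprod]
      exact mul_mem (g K i j).2 hmem
    refine ⟨hm', ?_⟩
    have : (⟨_, hm'⟩ : S K Y Z) = g K i j * ⟨_, hmem⟩ := Subtype.ext hprod
    rw [this]
    exact J.mul_mem_right _ (hJ i j)
  have hf' : f = ∑ m ∈ (f : MvPolynomial (Y ⊕ Z) K).support.attach,
      (⟨_, (hmon m.1 m.2).1⟩ : S K Y Z) := by
    apply Subtype.ext
    rw [AddSubmonoidClass.coe_finsetSum]
    conv_lhs => rw [(f : MvPolynomial (Y ⊕ Z) K).as_sum]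
    rw [← Finset.sum_attach]
  rw [hf']
  exact J.sum_mem fun m _ => (hmon m.1 m.2).2

/-- **The common zero of bilinear forms.** -/
theorem exists_zero [IsAlgClosed K] [Fintype Y] [Fintype Z] [Nonempty Y] [Nonempty Z] {m : ℕ}
    (h : m + 2 ≤ Fintype.card Y + Fintype.card Z) (B : Fin m → Y → Z → K) :
    ∃ (y : Y → K) (z : Z → K), y ≠ 0 ∧ z ≠ 0 ∧ ∀ c, ∑ i, ∑ j, B c i j * (y i * z j) = 0 := by
  classical
  by_contra hcon
  push Not at hcon
  have := noeth (K := K) (Y := Y) (Z := Z)
  let b : Fin m → S K Y Z := fun c => ∑ i, ∑ j, B c i j • g K i j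
  let I : Ideal (S K Y Z) := Ideal.span (Set.range b)
  set M : Ideal (S K Y Z) := P K (Finset.univ : Finset (Y ⊕ Z)) with hM
  have hgM : ∀ i j, g K i j ∈ M := fun i j => g_mem_P.2 (Or.inl (Finset.mem_univ _))
  have hIM : I ≤ M := by
    rw [Ideal.span_le]
    rintro _ ⟨c, rfl⟩
    refine M.sum_mem fun i _ => M.sum_mem fun j _ => ?_
    rw [Algebra.smul_def]
    exact M.mul_mem_left _ (hgM i j)
  have hbc : ∀ c, (b c : MvPolynomial (Y ⊕ Z) K) =
      ∑ i, ∑ j, B c i j • (X (Sum.inl i) * X (Sum.inr j)) := by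
    intro c
    show ((∑ i, ∑ j, B c i j • g K i j : S K Y Z) : MvPolynomial (Y ⊕ Z) K) = _
    rw [AddSubmonoidClass.coe_finsetSum]
    refine Finset.sum_congr rfl fun i _ => ?_
    rw [AddSubmonoidClass.coe_finsetSum]
    rfl
  let I' : Ideal (MvPolynomial (Y ⊕ Z) K) :=
    I.map (algebraMap (S K Y Z) (MvPolynomial (Y ⊕ Z) K))
  have hrad : ∀ i j, (X (Sum.inl i) * X (Sum.inr j) : MvPolynomial (Y ⊕ Z) K) ∈ I'.radical := by
    intro i j
    rw [← vanishingIdeal_zeroLocus_eq_radical (K := K)]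
    rw [mem_vanishingIdeal_iff]
    intro x hx
    rw [map_mul, aeval_X, aeval_X]
    by_contra hne
    rw [mul_eq_zero, not_or] at hne
    obtain ⟨c, hc⟩ := hcon (fun i => x (Sum.inl i)) (fun j => x (Sum.inr j))
      (fun h0 => hne.1 (congrFun h0 i)) (fun h0 => hne.2 (congrFun h0 j))
    apply hc
    have h1 : (b c : MvPolynomial (Y ⊕ Z) K) ∈ I' :=
      Ideal.mem_map_of_mem (algebraMap (S K Y Z) (MvPolynomial (Y ⊕ Z) K))
        (Ideal.subset_span ⟨c, rfl⟩)
    have h2 := hx _ h1
    rw [hbc] at h2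
    simpa [map_sum] using h2
  have hmin : M ∈ I.minimalPrimes := by
    refine ⟨⟨inferInstance, hIM⟩, ?_⟩
    rintro J ⟨hJ, hIJ⟩ _
    apply P_univ_le
    intro i j
    obtain ⟨n, hn⟩ := hrad i j
    have h1 : (g K i j) ^ n ∈ I := by
      apply mem_of_mem_map
      exact hn
    exact hJ.mem_of_pow_mem n (hIJ h1)
  have hht : M.height ≤ (m : ℕ∞) := by
    have h1 := Ideal.height_le_card_of_mem_minimalPrimes_span (Set.finite_range b) hmin
    refine h1.trans ?_
    have h2 : (Set.range b).ncard ≤ m := by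
      rw [← Set.image_univ]
      refine (Set.ncard_image_le (Set.finite_univ)).trans ?_
      rw [Set.ncard_univ, Nat.card_eq_fintype_card, Fintype.card_fin]
    exact_mod_cast h2
  have h3 := (height_univ (K := K) (Y := Y) (Z := Z)).trans hht
  have h4 : Fintype.card Y + Fintype.card Z - 1 ≤ m := by exact_mod_cast h3
  omega

end Pool.Agent.X324.ML.BZ
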