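import Pool.Agent.X324.ML.Nonempty
import Pool.Agent.X324.ML.BZ
import Pool.Agent.H16R2.RankAmp2

/-! Smoothness bounds the ranks of the slices from below. -/

namespace Pool.Agent.X324.ML

open Finset Matrix Module

/-- Common zeros of bilinear forms with both vectors in the kernels of a matrix. -/
theorem exists_zero_sub {n m : ℕ} (M : Matrix (Fin n) (Fin m) ℂ) {κ : Type} [Fintype κ]
    (B : κ → Matrix (Fin n) (Fin m) ℂ) (hn : M.rank < n) (hm : M.rank < m)
    (h : Fintype.card κ + 2 + 2 * M.rank ≤ n + m) :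
    ∃ (y : Fin n → ℂ) (z : Fin m → ℂ), y ≠ 0 ∧ z ≠ 0 ∧ Mᵀ *ᵥ y = 0 ∧ M *ᵥ z = 0 ∧
      ∀ c, y ⬝ᵥ (B c *ᵥ z) = 0 := by
  set E := LinearMap.ker Mᵀ.mulVecLin with hE
  set F := LinearMap.ker M.mulVecLin with hF
  have hEf : finrank ℂ E = n - M.rank := by
    have h1 := LinearMap.finrank_range_add_finrank_ker Mᵀ.mulVecLin
    rw [finrank_fintype_fun_eq_card, Fintype.card_fin] at h1
    have h2 : finrank ℂ (LinearMap.range Mᵀ.mulVecLin) = Mᵀ.rank := rfl
    rw [h2, Matrix.rank_transpose, ← hE] at h1
    omega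
  have hFf : finrank ℂ F = m - M.rank := by
    have h1 := LinearMap.finrank_range_add_finrank_ker M.mulVecLin
    rw [finrank_fintype_fun_eq_card, Fintype.card_fin] at h1
    have h2 : finrank ℂ (LinearMap.range M.mulVecLin) = M.rank := rfl
    rw [h2, ← hF] at h1
    omega
  let u := Module.finBasis ℂ E
  let v := Module.finBasis ℂ F
  have : Nonempty (Fin (finrank ℂ E)) := ⟨⟨0, by omega⟩⟩
  have : Nonempty (Fin (finrank ℂ F)) := ⟨⟨0, by omega⟩⟩
  let e := Fintype.equivFin κ
  obtain ⟨y, z, hy, hz, hyz⟩ := BZ.exists_zero (K := ℂ) (Y := Fin (finrank ℂ E))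
    (Z := Fin (finrank ℂ F)) (m := Fintype.card κ)
    (by rw [Fintype.card_fin, Fintype.card_fin, hEf, hFf]; omega)
    (fun c i j => (u i : Fin n → ℂ) ⬝ᵥ (B (e.symm c) *ᵥ (v j : Fin m → ℂ)))
  let y' : E := ∑ i, y i • u i
  let z' : F := ∑ j, z j • v j
  have hy' : y' ≠ 0 := by
    intro h0
    apply hy
    funext i
    have h1 := u.linearIndependent
    rw [Fintype.linearIndependent_iff] at h1
    exact h1 y h0 i
  have hz' : z' ≠ 0 := by
    intro h0
    apply hz
    funext i
    have h1 := v.linearIndependent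
    rw [Fintype.linearIndependent_iff] at h1
    exact h1 z h0 i
  refine ⟨y', z', fun h0 => hy' (Subtype.ext h0), fun h0 => hz' (Subtype.ext h0), y'.2, z'.2, ?_⟩
  intro c
  have h1 := hyz (e c)
  have hy'' : (y' : Fin n → ℂ) = ∑ i, y i • (u i : Fin n → ℂ) := by
    simp only [y', Submodule.coe_sum, Submodule.coe_smul]
  have hz'' : (z' : Fin m → ℂ) = ∑ j, z j • (v j : Fin m → ℂ) := by
    simp only [z', Submodule.coe_sum, Submodule.coe_smul]
  rw [hy'', hz'', Matrix.mulVec_sum, sum_dotProduct]
  simp only [Equiv.symm_apply_apply] at h1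
  rw [← h1]
  refine Finset.sum_congr rfl fun i _ => ?_
  rw [dotProduct_sum]
  refine Finset.sum_congr rfl fun j _ => ?_
  rw [Matrix.mulVec_smul, smul_dotProduct, dotProduct_smul]
  simp only [smul_eq_mul]
  ring

variable {ι : Type} [Fintype ι] [DecidableEq ι] {N : ι → ℕ} {k : ℕ}

/-- Smoothness: at every complex point of `X` the gradients of the `k` equations are
independent. -/
def Smooth (a : Fin k → (∀ i, Fin (N i)) → ℤ) : Prop :=
  ∀ x : Vec N ℂ, (∀ i, x i ≠ 0) → (∀ c, mf (a c) x = 0) →
    LinearIndependent ℂ fun c => fun p : (Σ i, Fin (N i)) => gr (a c) x p.1 p.2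

theorem sl_transpose {R : Type*} [CommRing R] (a : (∀ i, Fin (N i)) → ℤ) (x : Vec N R) {i j : ι}
    (hij : i ≠ j) : sl a x j i = (sl a x i j)ᵀ := by
  ext p q
  show mf a (Function.update (Function.update x j (Pi.single p 1)) i (Pi.single q 1)) =
    mf a (Function.update (Function.update x i (Pi.single q 1)) j (Pi.single p 1))
  rw [Function.update_comm hij]

theorem mf_update2 {R : Type*} [CommRing R] (a : (∀ i, Fin (N i)) → ℤ) (x : Vec N R) {i j : ι}
    (hij : i ≠ j) (y : Fin (N i) → R) (z : Fin (N j) → R) :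
    mf a (Function.update (Function.update x i y) j z) = y ⬝ᵥ (sl a x i j *ᵥ z) := by
  rw [mf_update, gr_update a x hij.symm, sl_transpose a x hij, Matrix.mulVec_transpose,
    ← Matrix.dotProduct_mulVec]

/-- **Smoothness bounds the ranks of the slices.** -/
theorem rank_smooth {a : Fin k → (∀ i, Fin (N i)) → ℤ} (hs : Smooth a) {i j : ι} (hij : i ≠ j)
    (x : Vec N ℂ) (hx : ∀ l, x l ≠ 0) (s : Fin k → ℂ) (hs0 : s ≠ 0) :
    N i ≤ (∑ c, s c • sl (a c) x i j).rank ∨ N j ≤ (∑ c, s c • sl (a c) x i j).rank ∨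
    N i + N j ≤ 2 * (∑ c, s c • sl (a c) x i j).rank +
      ∑ l ∈ (univ.erase i).erase j, (N l - 1) + k := by
  set M := ∑ c, s c • sl (a c) x i j with hM
  by_contra hcon
  push Not at hcon
  obtain ⟨h1, h2, h3⟩ := hcon
  obtain ⟨c0, hc0⟩ : ∃ c0, s c0 ≠ 0 := by
    by_contra hc
    push Not at hc
    exact hs0 (funext hc)
  have hP : ∀ l, ∃ p, x l p ≠ 0 := by
    intro l
    by_contra hc
    push Not at hc
    exact hx l (funext hc)
  choose P hP using hP
  let κ : Type := (Σ l : {l : ι // l ≠ i ∧ l ≠ j}, {p : Fin (N l.1) // p ≠ P l.1}) ⊕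
    {c : Fin k // c ≠ c0}
  let B : κ → Matrix (Fin (N i)) (Fin (N j)) ℂ := Sum.elim
    (fun t => ∑ c, s c • sl (a c) (Function.update x t.1.1 (Pi.single t.2.1 1)) i j)
    (fun c => sl (a c.1) x i j)
  have hcard : Fintype.card κ = ∑ l ∈ (univ.erase i).erase j, (N l - 1) + (k - 1) := by
    rw [Fintype.card_sum, Fintype.card_sigma]
    congr 1
    · have e1 : ∀ l : {l : ι // l ≠ i ∧ l ≠ j}, Fintype.card {p : Fin (N l.1) // p ≠ P l.1} =
          N l.1 - 1 := by
        intro l
        rw [Fintype.card_subtype_compl, Fintype.card_fin]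
        simp
      simp only [e1]
      rw [← Finset.sum_subtype ((univ.erase i).erase j) (p := fun l => l ≠ i ∧ l ≠ j)
        (f := fun l => N l - 1)]
      intro l
      rw [Finset.mem_erase, Finset.mem_erase]
      exact ⟨fun h => ⟨h.2.1, h.1⟩, fun h => ⟨h.2, h.1, mem_univ l⟩⟩
    · rw [Fintype.card_subtype_compl, Fintype.card_fin]
      simp
  have hk : 1 ≤ k := by
    have := c0.2
    omega
  obtain ⟨y, z, hy, hz, hyM, hzM, hB⟩ := exists_zero_sub M B h1 h2 (by rw [hcard]; omega)
  set x' : Vec N ℂ := Function.update (Function.update x i y) j z with hx'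
  have hx'i : x' i = y := by
    rw [hx', Function.update_of_ne hij, Function.update_self]
  have hx'j : x' j = z := by
    rw [hx', Function.update_self]
  have hx'l : ∀ l, l ≠ i → l ≠ j → x' l = x l := fun l h4 h5 => by
    rw [hx', Function.update_of_ne h5, Function.update_of_ne h4]
  have hx'n : ∀ l, x' l ≠ 0 := by
    intro l
    by_cases hlj : l = j
    · subst hlj; rw [hx'j]; exact hz
    · by_cases hli : l = i
      · subst hli; rw [hx'i]; exact hy
      · rw [hx'l l hli hlj]; exact hx l
  have hsl : ∀ c, sl (a c) x' i j = sl (a c) x i j := fun c => by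
    rw [hx', sl_update_right (a c) _ hij, sl_update_left]
  -- the values
  have hsum : ∑ c, s c * mf (a c) x' = 0 := by
    have e1 : ∑ c, s c * mf (a c) x' = y ⬝ᵥ (M *ᵥ z) := by
      rw [hM, Matrix.sum_mulVec, dotProduct_sum]
      refine Finset.sum_congr rfl fun c _ => ?_
      rw [hx', mf_update2 (a c) x hij, Matrix.smul_mulVec, dotProduct_smul, smul_eq_mul]
    rw [e1, hzM, dotProduct_zero]
  have hmf : ∀ c, mf (a c) x' = 0 := by
    have h4 : ∀ c, c ≠ c0 → mf (a c) x' = 0 := by
      intro c hc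
      rw [hx', mf_update2 (a c) x hij]
      exact hB (Sum.inr ⟨c, hc⟩)
    intro c
    by_cases hc : c = c0
    · subst hc
      rw [← Finset.add_sum_erase univ _ (mem_univ c)] at hsum
      have h5 : ∑ c' ∈ univ.erase c, s c' * mf (a c') x' = 0 := by
        refine Finset.sum_eq_zero fun c' hc' => ?_
        rw [h4 c' (Finset.ne_of_mem_erase hc'), mul_zero]
      rw [h5, add_zero] at hsum
      exact (mul_eq_zero.1 hsum).resolve_left hc0
    · exact h4 c hc
  -- the gradients
  have hgr : ∀ l, ∀ p : Fin (N l), ∑ c, s c * gr (a c) x' l p = 0 := by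
    intro l
    by_cases hli : l = i
    · subst hli
      intro p
      have e1 : ∑ c, s c * gr (a c) x' l p = (M *ᵥ z) p := by
        rw [hM, Matrix.sum_mulVec, Finset.sum_apply]
        refine Finset.sum_congr rfl fun c _ => ?_
        rw [gr_eq_sl (a c) x' hij, hx'j, Matrix.smul_mulVec, Pi.smul_apply, smul_eq_mul, hsl]
      rw [e1, hzM]
      rfl
    · by_cases hlj : l = j
      · subst hlj
        intro p
        have e1 : ∑ c, s c * gr (a c) x' l p = (Mᵀ *ᵥ y) p := by
          rw [hM, Matrix.transpose_sum, Matrix.sum_mulVec, Finset.sum_apply]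
          refine Finset.sum_congr rfl fun c _ => ?_
          rw [gr_eq_sl (a c) x' hij.symm, hx'i, Matrix.transpose_smul, Matrix.smul_mulVec,
            Pi.smul_apply, smul_eq_mul, sl_transpose (a c) x' hij, hsl]
        rw [e1, hyM]
        rfl
      · have h5 : ∀ p, p ≠ P l → ∑ c, s c * gr (a c) x' l p = 0 := by
          intro p hp
          have h6 := hB (Sum.inl ⟨⟨l, hli, hlj⟩, ⟨p, hp⟩⟩)
          simp only [B, Sum.elim_inl] at h6
          rw [Matrix.sum_mulVec, dotProduct_sum] at h6
          rw [← h6]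
          refine Finset.sum_congr rfl fun c _ => ?_
          rw [Matrix.smul_mulVec, dotProduct_smul, smul_eq_mul, ← mf_update2 (a c) _ hij]
          unfold gr
          congr 2
          rw [hx', Function.update_comm (Ne.symm hlj), Function.update_comm (Ne.symm hli)]
        have h7 : ∑ p, (∑ c, s c * gr (a c) x' l p) * x l p = 0 := by
          have e1 : ∑ p, (∑ c, s c * gr (a c) x' l p) * x l p = ∑ c, s c * mf (a c) x' := by
            simp only [Finset.sum_mul]
            rw [Finset.sum_comm]
            refine Finset.sum_congr rfl fun c _ => ?_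
            rw [mf_eq (a c) x' l, hx'l l hli hlj, dotProduct, Finset.mul_sum]
            refine Finset.sum_congr rfl fun p _ => ?_
            ring
          rw [e1, hsum]
        intro p
        by_cases hp : p = P l
        · subst hp
          rw [← Finset.add_sum_erase univ _ (mem_univ (P l))] at h7
          have h8 : ∑ p ∈ univ.erase (P l), (∑ c, s c * gr (a c) x' l p) * x l p = 0 := by
            refine Finset.sum_eq_zero fun p hp => ?_
            rw [h5 p (Finset.ne_of_mem_erase hp), zero_mul]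
          rw [h8, add_zero] at h7
          exact (mul_eq_zero.1 h7).resolve_right (hP l)
        · exact h5 p hp
  have hli := hs x' hx'n hmf
  rw [Fintype.linearIndependent_iff] at hli
  refine hc0 (hli s ?_ c0)
  funext t
  rw [Finset.sum_apply]
  simp only [Pi.smul_apply, smul_eq_mul, Pi.zero_apply]
  exact hgr t.1 t.2

/-- The complex point given by an integer point. -/
def cV (x : Vec N ℤ) : Vec N ℂ := fun l p => (x l p : ℂ)

omit [Fintype ι] in
theorem cV_update (x : Vec N ℤ) (i : ι) (p : Fin (N i)) :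
    cV (Function.update x i (Pi.single p 1)) = Function.update (cV x) i (Pi.single p 1) := by
  funext l q
  unfold cV
  by_cases hl : l = i
  · subst hl
    rw [Function.update_self, Function.update_self]
    by_cases hq : q = p
    · subst hq
      simp
    · simp [hq]
  · rw [Function.update_of_ne hl, Function.update_of_ne hl]

theorem mf_cV (a : (∀ i, Fin (N i)) → ℤ) (x : Vec N ℤ) : mf a (cV x) = ((mf a x : ℤ) : ℂ) := by
  unfold mf cV
  push_cast
  rfl

theorem sl_cV (a : (∀ i, Fin (N i)) → ℤ) (x : Vec N ℤ) (i j : ι) :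
    (sl a x i j).map (Int.cast : ℤ → ℂ) = sl a (cV x) i j := by
  ext p q
  show ((mf a (Function.update (Function.update x i (Pi.single p 1)) j (Pi.single q 1)) : ℤ) : ℂ) =
    mf a (Function.update (Function.update (cV x) i (Pi.single p 1)) j (Pi.single q 1))
  rw [← mf_cV, cV_update, cV_update]

/-- **The rank condition from smoothness.** -/
theorem rankCond_of_smooth {a : Fin k → (∀ i, Fin (N i)) → ℤ} (hs : Smooth a) {R : ℕ}
    (hN : ∀ i, R ≤ N i)
    (hNN : ∀ i j, i ≠ j → ∑ l ∈ (univ.erase i).erase j, (N l - 1) + k + 2 * R ≤ N i + N j + 1) :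
    RankCond a R := by
  intro s hs0 x hx i j hij
  have hcx : ∀ l, cV x l ≠ 0 := by
    intro l h0
    apply hx l
    funext p
    have := congrFun h0 p
    unfold cV at this
    simpa using this
  have hsc : (fun c => (s c : ℂ)) ≠ 0 := by
    intro h0
    apply hs0
    funext c
    have := congrFun h0 c
    simpa using this
  have h := rank_smooth hs hij (cV x) hcx (fun c => (s c : ℂ)) hsc
  have hM : ∑ c, (s c : ℂ) • sl (a c) (cV x) i j =
      (∑ c, s c • sl (a c) x i j).map (Int.cast : ℤ → ℂ) := by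
    ext p q
    rw [Matrix.map_apply, Matrix.sum_apply, Matrix.sum_apply]
    push_cast
    refine Finset.sum_congr rfl fun c _ => ?_
    rw [← sl_cV]
    simp
  have hrk : ((∑ c, s c • sl (a c) x i j).map (Int.cast : ℤ → ℂ)).rank =
      ((∑ c, s c • sl (a c) x i j).map (Int.cast : ℤ → ℝ)).rank := by
    have h1 := Pool.Agent.H16R2.RankAmp.rank_map Complex.ofRealHom
      ((∑ c, s c • sl (a c) x i j).map (Int.cast : ℤ → ℝ))
    rw [← h1, Matrix.map_map]
    congr 2
  rw [hM, hrk] at h
  have h1 := hN i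
  have h2 := hN j
  have h3 := hNN i j hij
  omega

end Pool.Agent.X324.ML
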