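import Pool.Agent.X324.ML.Form

/-! The number of integer vectors whose images under several matrices are linearly dependent. -/

namespace Pool.Agent.X324.ML

open Finset Matrix Module
open Pool.Agent.H548.WM (ht bx mem_bx le_ht' ht_le)
open Pool.Agent.H548.BL (rc doubling)

theorem finrank_span_dep {k n : ℕ} {w : Fin k → Fin n → ℤ} (h : ¬ LinearIndependent ℤ w) :
    finrank ℝ (Submodule.span ℝ (Set.range fun c => rc (w c))) ≤ k - 1 := by
  have h1 : ¬ LinearIndependent ℝ (fun i => rc (w i)) := fun h2 =>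
    h ((linearIndependent_algebraMap_comp_iff (R := ℤ) (S := ℝ) (v := w)).1 h2)
  have h2 := finrank_range_le_card (R := ℝ) (fun i => rc (w i))
  rw [linearIndependent_iff_card_eq_finrank_span] at h1
  rw [Fintype.card_fin] at h1 h2
  have h3 : (Set.range fun c => rc (w c)).finrank ℝ =
    finrank ℝ (Submodule.span ℝ (Set.range fun c => rc (w c))) := rfl
  rw [h3] at h1 h2
  omega

/-- The homomorphism from integer to real vectors. -/
def rcHom (n : ℕ) : (Fin n → ℤ) →+ (Fin n → ℝ) := (Int.castAddHom ℝ).compLeft (Fin n)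

theorem rcHom_apply {n : ℕ} (v : Fin n → ℤ) : rcHom n v = rc v := rfl

/-- The bound for the coefficients of a relation. -/
def Hb (n k m : ℕ) : ℕ := 3 ^ n * (3 * k * m) ^ (k - 1)

theorem Hb_pos {n k m : ℕ} (hk : 1 ≤ k) (hm : 1 ≤ m) : 1 ≤ Hb n k m := by
  unfold Hb
  have : 0 < 3 ^ n * (3 * k * m) ^ (k - 1) := by positivity
  omega

open Classical in
/-- Dependent integer vectors have a small integer relation. -/
theorem exists_small_rel {k n : ℕ} (hk : 1 ≤ k) {w : Fin k → Fin n → ℤ}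
    (h : ¬ LinearIndependent ℤ w) (m : ℕ) (hm : 1 ≤ m) (hw : ∀ c, ht (w c) ≤ m) :
    ∃ s : Fin k → ℤ, s ≠ 0 ∧ ht s ≤ Hb n k m ∧ ∀ p, ∑ c, s c * w c p = 0 := by
  set H := Hb n k m with hH
  have hH1 : 1 ≤ H := Hb_pos hk hm
  set V := Submodule.span ℝ (Set.range fun c => rc (w c)) with hV
  let Λ : AddSubgroup (Fin n → ℤ) := V.toAddSubgroup.comap (rcHom n)
  have hΛ : ∀ v ∈ Λ, rc v ∈ V := fun v hv => hv
  have hB1 : 1 ≤ k * H * m := Nat.mul_pos (Nat.mul_pos hk hH1) hm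
  have hd := doubling Λ V (finrank_span_dep h) hΛ (k * H * m) 1 le_rfl hB1
  have h1 : (((bx n 1).filter (· ∈ Λ)).card : ℝ) ≤ 3 ^ n := by
    have h3 := Finset.card_filter_le (bx n 1) (· ∈ Λ)
    have h4 := Pool.Agent.H548.WM.card_bx_le n (X := 1) le_rfl
    have h5 : (((bx n 1).filter (· ∈ Λ)).card : ℝ) ≤ ((bx n 1).card : ℝ) := by
      exact_mod_cast h3
    calc (((bx n 1).filter (· ∈ Λ)).card : ℝ) ≤ (bx n 1).card := h5
      _ ≤ (3 * ((1 : ℕ) : ℝ)) ^ n := h4
      _ = 3 ^ n := by norm_num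
  set t := (bx n (k * H * m)).filter (· ∈ Λ) with ht'
  have hcard : (t.card : ℝ) ≤ (H : ℝ) ^ k := by
    calc (t.card : ℝ) ≤ (3 * ((k * H * m : ℕ) : ℝ) / ((1 : ℕ) : ℝ)) ^ (k - 1) *
          (((bx n 1).filter (· ∈ Λ)).card : ℝ) := hd
      _ ≤ (3 * ((k * H * m : ℕ) : ℝ) / ((1 : ℕ) : ℝ)) ^ (k - 1) * 3 ^ n := by gcongr
      _ = (H : ℝ) ^ (k - 1) * (3 ^ n * (3 * k * m) ^ (k - 1)) := by
        push_cast
        rw [div_one, show (3 * ((k : ℝ) * H * m)) = H * (3 * k * m) by ring, mul_pow]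
        ring
      _ = (H : ℝ) ^ (k - 1) * H := by
        rw [hH]
        unfold Hb
        push_cast
        ring
      _ = (H : ℝ) ^ k := by
        rw [← pow_succ]
        congr 1
        omega
  set D : Finset (Fin k → ℤ) := Fintype.piFinset fun _ => Finset.Icc (0 : ℤ) H with hD
  have hDc : D.card = (H + 1) ^ k := by
    rw [hD, Fintype.card_piFinset]
    simp
  have hlt : t.card < D.card := by
    have h2 : (t.card : ℝ) < ((H + 1 : ℕ) : ℝ) ^ k := by
      refine hcard.trans_lt ?_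
      refine pow_lt_pow_left₀ ?_ (by positivity) (by omega)
      push_cast
      linarith
    rw [hDc]
    exact_mod_cast h2
  let f : (Fin k → ℤ) → (Fin n → ℤ) := fun s p => ∑ c, s c * w c p
  have hmaps : ∀ s ∈ D, f s ∈ t := by
    intro s hs
    rw [hD, Fintype.mem_piFinset] at hs
    rw [ht', mem_filter, mem_bx]
    constructor
    · refine ht_le fun p => ?_
      calc |f s p| ≤ ∑ c, |s c * w c p| := Finset.abs_sum_le_sum_abs _ _
        _ ≤ ∑ _c : Fin k, ((H : ℤ) * m) := by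
          refine Finset.sum_le_sum fun c _ => ?_
          rw [abs_mul]
          have e1 : |s c| ≤ (H : ℤ) := by
            have := Finset.mem_Icc.1 (hs c)
            rw [abs_of_nonneg this.1]
            exact this.2
          have e2 : |w c p| ≤ (m : ℤ) := (le_ht' (w c) p).trans (by exact_mod_cast hw c)
          gcongr
        _ = ((k * H * m : ℕ) : ℤ) := by
          rw [Finset.sum_const, Finset.card_univ, Fintype.card_fin]
          push_cast
          rw [nsmul_eq_mul]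
          ring
    · show rc (f s) ∈ V
      have e : rc (f s) = ∑ c, (s c : ℝ) • rc (w c) := by
        funext p
        rw [Finset.sum_apply]
        simp only [Pi.smul_apply, smul_eq_mul, rc, f]
        push_cast
        rfl
      rw [e]
      exact Submodule.sum_mem _ fun c _ => Submodule.smul_mem _ _
        (Submodule.subset_span ⟨c, rfl⟩)
  obtain ⟨x, hx, y, hy, hxy, hf⟩ := Finset.exists_ne_map_eq_of_card_lt_of_maps_to hlt hmaps
  refine ⟨x - y, sub_ne_zero.2 hxy, ?_, ?_⟩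
  · refine ht_le fun c => ?_
    rw [hD, Fintype.mem_piFinset] at hx hy
    have h1 := Finset.mem_Icc.1 (hx c)
    have h2 := Finset.mem_Icc.1 (hy c)
    rw [Pi.sub_apply, abs_le]
    constructor <;> linarith [h1.1, h1.2, h2.1, h2.2]
  · intro p
    have h1 := congrFun hf p
    simp only [f] at h1
    simp only [Pi.sub_apply, sub_mul, Finset.sum_sub_distrib]
    rw [h1, sub_self]

open Classical in
/-- The number of vectors in the kernel of an integer matrix. -/
theorem card_ker {n m : ℕ} (P : Matrix (Fin n) (Fin m) ℤ) (R : ℕ)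
    (hR : R ≤ (P.map (Int.cast : ℤ → ℝ)).rank) (ρ : ℕ) (hρ : 1 ≤ ρ) :
    (((bx m ρ).filter fun y => P *ᵥ y = 0).card : ℝ) ≤ 3 ^ m * (3 * ρ) ^ (m - R) := by
  let Λ : AddSubgroup (Fin m → ℤ) := (LinearMap.ker P.mulVecLin).toAddSubgroup
  set V := LinearMap.ker (P.map (Int.cast : ℤ → ℝ)).mulVecLin with hV
  have hfin : finrank ℝ V ≤ m - R := by
    have h3 := LinearMap.finrank_range_add_finrank_ker (P.map (Int.cast : ℤ → ℝ)).mulVecLin
    rw [finrank_fintype_fun_eq_card, Fintype.card_fin] at h3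
    have h4 : finrank ℝ (LinearMap.range (P.map (Int.cast : ℤ → ℝ)).mulVecLin) =
      (P.map (Int.cast : ℤ → ℝ)).rank := rfl
    rw [h4] at h3
    show finrank ℝ (LinearMap.ker (P.map (Int.cast : ℤ → ℝ)).mulVecLin) ≤ m - R
    omega
  have hΛ : ∀ v ∈ Λ, rc v ∈ V := by
    intro v hv
    have h1 : P *ᵥ v = 0 := hv
    rw [hV, LinearMap.mem_ker, Matrix.mulVecLin_apply]
    funext i
    have h2 := RingHom.map_mulVec (Int.castRingHom ℝ) P v i
    rw [h1] at h2
    have h3 : (Int.castRingHom ℝ) ((0 : Fin n → ℤ) i) = 0 := by simp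
    rw [h3] at h2
    exact h2.symm
  have hmem : ∀ v, v ∈ Λ ↔ P *ᵥ v = 0 := fun v => Iff.rfl
  have hd := doubling Λ V hfin hΛ ρ 1 le_rfl hρ
  have h2 : (((bx m 1).filter (· ∈ Λ)).card : ℝ) ≤ 3 ^ m := by
    have h3 := Finset.card_filter_le (bx m 1) (· ∈ Λ)
    have h4 := Pool.Agent.H548.WM.card_bx_le m (X := 1) le_rfl
    have h5 : (((bx m 1).filter (· ∈ Λ)).card : ℝ) ≤ ((bx m 1).card : ℝ) := by
      exact_mod_cast h3
    calc (((bx m 1).filter (· ∈ Λ)).card : ℝ) ≤ (bx m 1).card := h5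
      _ ≤ (3 * ((1 : ℕ) : ℝ)) ^ m := h4
      _ = 3 ^ m := by norm_num
  have h6 : ((bx m ρ).filter fun y => P *ᵥ y = 0) = (bx m ρ).filter (· ∈ Λ) := by
    ext v
    simp only [mem_filter, hmem]
  rw [h6]
  calc (((bx m ρ).filter (· ∈ Λ)).card : ℝ) ≤ _ := hd
    _ ≤ (3 * ρ / ((1 : ℕ) : ℝ)) ^ (m - R) * 3 ^ m := by gcongr
    _ = _ := by
      rw [Nat.cast_one, div_one]
      ring

open Classical in
/-- The number of vectors with dependent images. -/
theorem card_dep {k m n : ℕ} (hk : 1 ≤ k) (W : Fin k → Matrix (Fin n) (Fin m) ℤ) (R : ℕ)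
    (hR : ∀ s : Fin k → ℤ, s ≠ 0 → R ≤ ((∑ c, s c • W c).map (Int.cast : ℤ → ℝ)).rank)
    (ρ h : ℕ) (hρ : 1 ≤ ρ) (hh : 1 ≤ h)
    (hW : ∀ c, ∀ y : Fin m → ℤ, ht y ≤ ρ → ht (W c *ᵥ y) ≤ h) :
    (((bx m ρ).filter fun y => ¬ LinearIndependent ℤ fun c => W c *ᵥ y).card : ℝ) ≤
      (3 * Hb n k h) ^ k * (3 ^ m * (3 * ρ) ^ (m - R)) := by
  set H := Hb n k h with hH
  have hH1 : 1 ≤ H := Hb_pos hk hh
  have hcov : ((bx m ρ).filter fun y => ¬ LinearIndependent ℤ fun c => W c *ᵥ y) ⊆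
      ((bx k H).filter (· ≠ 0)).biUnion fun s =>
        (bx m ρ).filter fun y => (∑ c, s c • W c) *ᵥ y = 0 := by
    intro y hy
    rw [mem_filter] at hy
    obtain ⟨hy1, hy2⟩ := hy
    have hyρ := mem_bx.1 hy1
    obtain ⟨s, hs0, hs1, hs2⟩ := exists_small_rel hk hy2 h hh fun c => hW c y hyρ
    rw [mem_biUnion]
    refine ⟨s, ?_, ?_⟩
    · rw [mem_filter, mem_bx]
      exact ⟨hs1, hs0⟩
    · rw [mem_filter]
      refine ⟨hy1, ?_⟩
      rw [Matrix.sum_mulVec]
      funext p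
      rw [Finset.sum_apply]
      simp only [smul_mulVec, Pi.smul_apply, smul_eq_mul, Pi.zero_apply]
      exact hs2 p
  calc ((((bx m ρ).filter fun y => ¬ LinearIndependent ℤ fun c => W c *ᵥ y).card : ℕ) : ℝ) ≤
      ((((bx k H).filter (· ≠ 0)).biUnion fun s =>
        (bx m ρ).filter fun y => (∑ c, s c • W c) *ᵥ y = 0).card : ℝ) := by
        exact_mod_cast card_le_card hcov
    _ ≤ ∑ s ∈ (bx k H).filter (· ≠ 0),
        (((bx m ρ).filter fun y => (∑ c, s c • W c) *ᵥ y = 0).card : ℝ) := by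
        exact_mod_cast card_biUnion_le
    _ ≤ ∑ s ∈ (bx k H).filter (· ≠ 0), 3 ^ m * (3 * (ρ : ℝ)) ^ (m - R) :=
        Finset.sum_le_sum fun s hs => card_ker _ R (hR s (mem_filter.1 hs).2) ρ hρ
    _ = (((bx k H).filter (· ≠ 0)).card : ℝ) * (3 ^ m * (3 * (ρ : ℝ)) ^ (m - R)) := by
        rw [Finset.sum_const, nsmul_eq_mul]
    _ ≤ (3 * H) ^ k * (3 ^ m * (3 * ρ) ^ (m - R)) := by
        gcongr
        refine le_trans ?_ (Pool.Agent.H548.WM.card_bx_le k hH1)
        exact_mod_cast card_filter_le _ _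

end Pool.Agent.X324.ML
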