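import Pool.Agent.X324.ML.Step

/-! The number of points in a box. -/

namespace Pool.Agent.X324.ML

open Finset Matrix Module
open Pool.Agent.H548.WM (ht bx mem_bx le_ht' ht_le card_bx card_bx_le)
open Pool.Agent.H548.BL (exists_scale)

theorem real_step (n e u w t : ℕ) (hue : u ≤ e) (hwe : w ≤ e) (hun : u ≤ n) (hwn : w + t ≤ n)
    (hne : n ≤ e) (B ρ M P Q c D K F X Y F' ε q : ℝ) (hB : 1 ≤ B) (hρ : 1 ≤ ρ) (hM : 1 ≤ M)
    (hMB : M ≤ B) (hMQ : M ≤ Q) (hP : 0 ≤ P) (hq : 1 ≤ q) (h1 : M ≤ q * ρ) (h2 : ρ * q ≤ 2 * M)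
    (hε : 0 < ε) (hqe : q ^ e ≤ M ^ ε) (hqz : 3 ^ e * 2 * (2 / q) ^ ε ≤ 1) (hc : 0 ≤ c)
    (hD : 0 ≤ D) (hF : F ≤ (3 * B / ρ) ^ n * (X + F' + Y)) (hX : X ≤ c * P * M ^ u)
    (hY : Y ≤ D * P * (M ^ w * ρ ^ t)) (hF' : F' ≤ K * (P * ρ ^ n) * (Q * (ρ / B)) ^ ε)
    (hK : 2 * (3 ^ e * (c + D)) ≤ K) : F ≤ K * (P * B ^ n) * Q ^ ε := by
  have hB0 : 0 < B := by linarith
  have hρ0 : 0 < ρ := by linarith
  have hq0 : 0 < q := by linarith
  have hQ0 : 0 < Q := by linarith
  have hM0 : 0 < M := by linarith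
  have hK0 : 0 ≤ K := le_trans (by positivity) hK
  have hMu : M ^ u ≤ q ^ e * ρ ^ n := by
    calc M ^ u ≤ (q * ρ) ^ u := by gcongr
      _ = q ^ u * ρ ^ u := mul_pow _ _ _
      _ ≤ q ^ e * ρ ^ n := mul_le_mul (pow_le_pow_right₀ hq hue) (pow_le_pow_right₀ hρ hun)
          (by positivity) (by positivity)
  have hMw : M ^ w * ρ ^ t ≤ q ^ e * ρ ^ n := by
    calc M ^ w * ρ ^ t ≤ (q * ρ) ^ w * ρ ^ t := by gcongr
      _ = q ^ w * ρ ^ (w + t) := by rw [mul_pow, pow_add]; ring
      _ ≤ q ^ e * ρ ^ n := mul_le_mul (pow_le_pow_right₀ hq hwe) (pow_le_pow_right₀ hρ hwn)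
          (by positivity) (by positivity)
  have h3n : (3 : ℝ) ^ n ≤ 3 ^ e := pow_le_pow_right₀ (by norm_num) hne
  have hqQ : q ^ e ≤ Q ^ ε := hqe.trans (Real.rpow_le_rpow hM0.le hMQ hε.le)
  have T1 : (3 * B / ρ) ^ n * X ≤ 3 ^ e * c * (P * B ^ n) * Q ^ ε := by
    calc (3 * B / ρ) ^ n * X ≤ (3 * B / ρ) ^ n * (c * P * (q ^ e * ρ ^ n)) := by
          gcongr
          exact hX.trans (by gcongr)
      _ = 3 ^ n * c * (P * B ^ n) * q ^ e := by
          rw [div_pow, mul_pow]
          field_simp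
      _ ≤ 3 ^ e * c * (P * B ^ n) * Q ^ ε := by gcongr
  have T3 : (3 * B / ρ) ^ n * Y ≤ 3 ^ e * D * (P * B ^ n) * Q ^ ε := by
    calc (3 * B / ρ) ^ n * Y ≤ (3 * B / ρ) ^ n * (D * P * (q ^ e * ρ ^ n)) := by
          gcongr
          exact hY.trans (by gcongr)
      _ = 3 ^ n * D * (P * B ^ n) * q ^ e := by
          rw [div_pow, mul_pow]
          field_simp
      _ ≤ 3 ^ e * D * (P * B ^ n) * Q ^ ε := by gcongr
  have T2 : (3 * B / ρ) ^ n * F' ≤ K / 2 * (P * B ^ n) * Q ^ ε := by
    have e1 : (Q * (ρ / B)) ^ ε ≤ Q ^ ε * (2 / q) ^ ε := by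
      rw [← Real.mul_rpow (by positivity) (by positivity)]
      apply Real.rpow_le_rpow (by positivity) _ hε.le
      have e2 : ρ / B ≤ 2 / q := by
        rw [div_le_div_iff₀ hB0 hq0]
        linarith
      gcongr
    calc (3 * B / ρ) ^ n * F' ≤ (3 * B / ρ) ^ n * (K * (P * ρ ^ n) * (Q ^ ε * (2 / q) ^ ε)) := by
          gcongr
          exact hF'.trans (by gcongr)
      _ = K / 2 * (P * B ^ n) * Q ^ ε * (3 ^ n * 2 * (2 / q) ^ ε) := by
          rw [div_pow, mul_pow]
          field_simp
      _ ≤ K / 2 * (P * B ^ n) * Q ^ ε * (3 ^ e * 2 * (2 / q) ^ ε) := by gcongr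
      _ ≤ K / 2 * (P * B ^ n) * Q ^ ε * 1 := by gcongr
      _ = _ := by ring
  have hPB : 0 ≤ P * B ^ n * Q ^ ε := by positivity
  calc F ≤ (3 * B / ρ) ^ n * (X + F' + Y) := hF
    _ = (3 * B / ρ) ^ n * X + (3 * B / ρ) ^ n * F' + (3 * B / ρ) ^ n * Y := by ring
    _ ≤ 3 ^ e * c * (P * B ^ n) * Q ^ ε + K / 2 * (P * B ^ n) * Q ^ ε +
        3 ^ e * D * (P * B ^ n) * Q ^ ε := by linarith
    _ = (3 ^ e * (c + D)) * (P * B ^ n * Q ^ ε) + K / 2 * (P * B ^ n * Q ^ ε) := by ring
    _ ≤ K / 2 * (P * B ^ n * Q ^ ε) + K / 2 * (P * B ^ n * Q ^ ε) := by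
        gcongr
        linarith
    _ = K * (P * B ^ n) * Q ^ ε := by ring

variable {ι : Type} [Fintype ι] [DecidableEq ι] {N : ι → ℕ} {k : ℕ}

open Classical in
/-- **The number of points in a box.** -/
theorem card_S (a : Fin k → (∀ i, Fin (N i)) → ℤ) (hk : 1 ≤ k) {R : ℕ} (hR : RankCond a R)
    (hr : 2 ≤ Fintype.card ι) (hRk : k + (Fintype.card ι - 1) * k ^ 2 ≤ R)
    (hN : ∀ i, R ≤ N i) (ε : ℝ) (hε : 0 < ε) :
    ∃ K : ℝ, 0 ≤ K ∧ ∀ A : ι → ℕ, (∀ l, 1 ≤ A l) → ((S a A).card : ℝ) ≤
      K * (∏ l, (A l : ℝ) ^ (N l - k)) * (∏ l, (A l : ℝ)) ^ ε := by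
  set r := Fintype.card ι with hrdef
  set u := k * (r - 1) with hu
  set v := (r - 1) * (k - 1) * k with hv
  set sN := ∑ l, N l with hsN
  set e := u + v + sN + 1 with he
  obtain ⟨A0, hA0⟩ := exists_scale e (by omega) ε hε
  set c0 : ℝ := 3 ^ sN with hc0
  set D1 : ℝ := (3 * (3 ^ sN * (3 * k * Ca a) ^ (k - 1))) ^ k with hD1
  set D : ℝ := r * (c0 * (D1 * (3 ^ sN * 3 ^ sN))) with hD
  set K0 : ℝ := 3 ^ sN * (c0 * (A0 : ℝ) ^ u * (1 + 3 ^ sN + 3 ^ sN)) with hK0
  set K : ℝ := max (2 * (3 ^ e * (c0 + D))) K0 with hK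
  have hc0' : 0 ≤ c0 := by positivity
  have hD1' : 0 ≤ D1 := by positivity
  have hD' : 0 ≤ D := by positivity
  have hK' : 0 ≤ K := le_max_of_le_left (by positivity)
  have huv : k + u + v ≤ R := by
    refine le_trans (le_of_eq ?_) hRk
    obtain ⟨k', rfl⟩ : ∃ k', k = k' + 1 := ⟨k - 1, by omega⟩
    rw [hu, hv, Nat.add_sub_cancel]
    ring
  refine ⟨K, hK', ?_⟩
  have key : ∀ n : ℕ, ∀ A : ι → ℕ, ∑ l, A l ≤ n → (∀ l, 1 ≤ A l) → ((S a A).card : ℝ) ≤
      K * (∏ l, (A l : ℝ) ^ (N l - k)) * (∏ l, (A l : ℝ)) ^ ε := by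
    intro n
    induction n with
    | zero =>
      intro A h h1
      exfalso
      have : Nonempty ι := Fintype.card_pos_iff.1 (by omega)
      obtain ⟨i⟩ := this
      have h2 := Finset.single_le_sum (f := A) (fun _ _ => Nat.zero_le _) (mem_univ i)
      have h3 := h1 i
      omega
    | succ n ih =>
      intro A hA h1
      have : Nonempty ι := Fintype.card_pos_iff.1 (by omega)
      obtain ⟨i, -, hi⟩ := Finset.exists_max_image univ A univ_nonempty
      have hne : (univ.erase i).Nonempty := by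
        rw [← Finset.card_pos, Finset.card_erase_of_mem (mem_univ i), Finset.card_univ]
        omega
      obtain ⟨j, hj, hjm⟩ := Finset.exists_max_image (univ.erase i) A hne
      set M := A j with hM
      set B := A i with hB
      have hMB : M ≤ B := hi j (mem_univ j)
      have hM1 : 1 ≤ M := h1 j
      have hB1 : 1 ≤ B := h1 i
      have hM1' : (1 : ℝ) ≤ M := by exact_mod_cast hM1
      have hB1' : (1 : ℝ) ≤ B := by exact_mod_cast hB1
      have hMB' : (M : ℝ) ≤ B := by exact_mod_cast hMB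
      have hAM : ∀ l, l ≠ i → A l ≤ M := fun l hl =>
        hjm l (Finset.mem_erase.2 ⟨hl, mem_univ l⟩)
      set P : ℝ := ∏ l ∈ univ.erase i, (A l : ℝ) ^ (N l - k) with hP
      set Q0 : ℝ := ∏ l ∈ univ.erase i, (A l : ℝ) with hQ0
      have hP0 : 0 ≤ P := by positivity
      have hPe : ∏ l, (A l : ℝ) ^ (N l - k) = P * (B : ℝ) ^ (N i - k) := by
        rw [← Finset.mul_prod_erase univ _ (mem_univ i), mul_comm]
      have hQe : ∏ l, (A l : ℝ) = B * Q0 := by
        rw [← Finset.mul_prod_erase univ _ (mem_univ i)]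
      have hQ01 : (M : ℝ) ≤ Q0 := by
        rw [hQ0, ← Finset.mul_prod_erase (univ.erase i) _ hj]
        have : (1 : ℝ) ≤ ∏ x ∈ (univ.erase i).erase j, (A x : ℝ) := by
          have h2 := Finset.prod_le_prod (s := (univ.erase i).erase j) (f := fun _ => (1 : ℝ))
            (g := fun x => (A x : ℝ)) (fun _ _ => zero_le_one) fun l _ => by exact_mod_cast h1 l
          rwa [Finset.prod_const_one] at h2
        have hM0 : (0 : ℝ) ≤ M := by linarith
        nlinarith
      have hQ0p : 0 < Q0 := by linarith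
      have hMQ : (M : ℝ) ≤ B * Q0 := by nlinarith
      have hbox : ((box (N := N) (Function.update A i 0)).card : ℝ) ≤ c0 * P * (M : ℝ) ^ u := by
        refine (card_box_zero_le A h1 i).trans ?_
        have e1 : ∀ l ∈ univ.erase i, (3 * (A l : ℝ)) ^ N l ≤
            3 ^ N l * ((M : ℝ) ^ k * (A l : ℝ) ^ (N l - k)) := by
          intro l hl
          have e2 : (A l : ℝ) ^ N l = (A l : ℝ) ^ k * (A l : ℝ) ^ (N l - k) := by
            rw [← pow_add]
            congr 1
            have := hN l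
            omega
          rw [mul_pow, e2]
          have e3 : (A l : ℝ) ≤ M := by exact_mod_cast hAM l (Finset.ne_of_mem_erase hl)
          gcongr
        refine (Finset.prod_le_prod (fun _ _ => by positivity) e1).trans ?_
        rw [Finset.prod_mul_distrib, Finset.prod_mul_distrib, Finset.prod_pow_eq_pow_sum,
          Finset.prod_const, Finset.card_erase_of_mem (mem_univ i), Finset.card_univ, ← pow_mul,
          ← hrdef, ← hu, ← hP]
        have e4 : (3 : ℝ) ^ (∑ l ∈ univ.erase i, N l) ≤ c0 := by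
          rw [hc0]
          refine pow_le_pow_right₀ (by norm_num) ?_
          exact Finset.sum_le_sum_of_subset (Finset.erase_subset _ _)
        calc (3 : ℝ) ^ (∑ l ∈ univ.erase i, N l) * ((M : ℝ) ^ u * P) ≤
            c0 * ((M : ℝ) ^ u * P) := by gcongr
          _ = _ := by ring
      have hNi : N i ≤ sN := Finset.single_le_sum (f := N) (fun _ _ => Nat.zero_le _) (mem_univ i)
      have hRi := hN i
      rw [hPe, hQe]
      rcases le_or_gt A0 M with hAM0 | hAM0
      · obtain ⟨ρ, q, -, hρ1, hρM, hq1, g1, g2, g3, g4⟩ := hA0 M hAM0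
        have hρ1' : (1 : ℝ) ≤ ρ := by exact_mod_cast hρ1
        set A' := Function.update A i ρ with hA'
        have hA'l : ∀ l, l ≠ i → A' l = A l := fun l hl => Function.update_of_ne hl _ _
        have hA'i : A' i = ρ := Function.update_self _ _ _
        have hA'1 : ∀ l, 1 ≤ A' l := by
          intro l
          by_cases hl : l = i
          · rw [hl, hA'i]; exact hρ1
          · rw [hA'l l hl]; exact h1 l
        have hA'M : ∀ l, A' l ≤ M := by
          intro l
          by_cases hl : l = i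
          · rw [hl, hA'i]; exact hρM.le
          · rw [hA'l l hl]; exact hAM l hl
        have hsum : ∑ l, A' l ≤ n := by
          have h2 : ∑ l, A' l < ∑ l, A l := by
            apply Finset.sum_lt_sum
            · intro l _
              by_cases hl : l = i
              · rw [hl, hA'i]; omega
              · rw [hA'l l hl]
            · exact ⟨i, mem_univ i, by rw [hA'i]; omega⟩
          omega
        have hst := step a i A ρ hρ1 (by omega)
        have hind := ih A' hsum hA'1
        have hPe' : ∏ l, (A' l : ℝ) ^ (N l - k) = P * (ρ : ℝ) ^ (N i - k) := by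
          rw [← Finset.mul_prod_erase univ _ (mem_univ i), mul_comm, hA'i]
          congr 1
          refine Finset.prod_congr rfl fun l hl => ?_
          rw [hA'l l (Finset.ne_of_mem_erase hl)]
        have hQe' : ∏ l, (A' l : ℝ) = B * Q0 * (ρ / B) := by
          rw [← Finset.mul_prod_erase univ _ (mem_univ i), hA'i]
          have : ∏ l ∈ univ.erase i, (A' l : ℝ) = Q0 := by
            refine Finset.prod_congr rfl fun l hl => ?_
            rw [hA'l l (Finset.ne_of_mem_erase hl)]
          rw [this]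
          field_simp
        rw [hPe', hQe'] at hind
        have hbad := card_Bd a hk hR i A' (hA'1 i) M hM1 hA'M
        have hup : Function.update A' i 0 = Function.update A i 0 := by
          rw [hA', Function.update_idem]
        rw [hup, hA'i] at hbad
        have hbad' : ((Bd a i A').card : ℝ) ≤ D * P * ((M : ℝ) ^ (u + v) * (ρ : ℝ) ^ (N i - R)) := by
          refine hbad.trans ?_
          have e1 : ((3 * Hb sN k (Ca a * M ^ (Fintype.card ι - 1)) : ℝ)) ^ k =
              D1 * (M : ℝ) ^ v := by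
            unfold Hb
            push_cast
            rw [hD1, hv, ← hrdef, pow_mul (M : ℝ) ((r - 1) * (k - 1)) k, ← mul_pow,
              pow_mul (M : ℝ) (r - 1) (k - 1), ← mul_assoc (3 * (k : ℝ)), mul_pow _ _ (k - 1)]
            ring
          rw [e1]
          have e2 : (3 : ℝ) ^ N i * (3 * (ρ : ℝ)) ^ (N i - R) ≤
              3 ^ sN * 3 ^ sN * (ρ : ℝ) ^ (N i - R) := by
            rw [mul_pow, ← mul_assoc]
            gcongr
            · norm_num
            · norm_num
            · omega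
          calc (r : ℝ) * (((box (N := N) (Function.update A i 0)).card : ℝ) *
              (D1 * (M : ℝ) ^ v * (3 ^ N i * (3 * (ρ : ℝ)) ^ (N i - R)))) ≤
              (r : ℝ) * ((c0 * P * (M : ℝ) ^ u) *
              (D1 * (M : ℝ) ^ v * (3 ^ sN * 3 ^ sN * (ρ : ℝ) ^ (N i - R)))) := by gcongr
            _ = D * P * ((M : ℝ) ^ (u + v) * (ρ : ℝ) ^ (N i - R)) := by
              rw [hD, pow_add]
              ring
        exact real_step (N i - k) e u (u + v) (N i - R) (by omega) (by omega) (by omega)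
          (by omega) (by omega) B ρ M P (B * Q0) c0 D K _ _ _ _ ε q hB1' hρ1' hM1' hMB' hMQ hP0
          hq1 g1 g2 hε g3 g4 hc0' hD' hst hbox hbad' hind (le_max_left _ _)
      · set A' := Function.update A i 1 with hA'
        have hA'l : ∀ l, l ≠ i → A' l = A l := fun l hl => Function.update_of_ne hl _ _
        have hA'i : A' i = 1 := Function.update_self _ _ _
        have hA'1 : ∀ l, 1 ≤ A' l := by
          intro l
          by_cases hl : l = i
          · rw [hl, hA'i]
          · rw [hA'l l hl]; exact h1 l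
        have hst := step a i A 1 le_rfl (by omega)
        have hM0' : (M : ℝ) ≤ A0 := by exact_mod_cast hAM0.le
        have hboxA0 : c0 * P * (M : ℝ) ^ u ≤ c0 * P * (A0 : ℝ) ^ u := by gcongr
        have hboxA' : ((box (N := N) A').card : ℝ) ≤ 3 ^ sN * (c0 * P * (A0 : ℝ) ^ u) := by
          have e1 : ((box (N := N) A').card : ℝ) =
              ((bx (N i) 1).card : ℝ) * ∏ l ∈ univ.erase i, ((bx (N l) (A l)).card : ℝ) := by
            unfold box
            rw [Fintype.card_piFinset]
            push_cast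
            rw [← Finset.mul_prod_erase univ _ (mem_univ i), hA'i]
            congr 1
            refine Finset.prod_congr rfl fun l hl => ?_
            rw [hA'l l (Finset.ne_of_mem_erase hl)]
          have e2 : ((box (N := N) (Function.update A i 0)).card : ℝ) =
              ∏ l ∈ univ.erase i, ((bx (N l) (A l)).card : ℝ) := by
            unfold box
            rw [Fintype.card_piFinset]
            push_cast
            rw [← Finset.mul_prod_erase univ _ (mem_univ i), Function.update_self]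
            have h0 : ((bx (N i) 0).card : ℝ) = 1 := by
              rw [card_bx]
              simp
            rw [h0, one_mul]
            refine Finset.prod_congr rfl fun l hl => ?_
            rw [Function.update_of_ne (Finset.ne_of_mem_erase hl)]
          rw [e1, ← e2]
          have e3 : ((bx (N i) 1).card : ℝ) ≤ 3 ^ sN := by
            refine (card_bx_le (N i) le_rfl).trans ?_
            rw [Nat.cast_one, mul_one]
            exact pow_le_pow_right₀ (by norm_num) hNi
          have e4 := hbox.trans hboxA0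
          gcongr
        have hS' : ((S a A').card : ℝ) ≤ 3 ^ sN * (c0 * P * (A0 : ℝ) ^ u) := by
          refine le_trans ?_ hboxA'
          exact_mod_cast card_filter_le _ _
        have hBd' : ((Bd a i A').card : ℝ) ≤ 3 ^ sN * (c0 * P * (A0 : ℝ) ^ u) := by
          refine le_trans ?_ hboxA'
          exact_mod_cast card_filter_le _ _
        have hbox' := hbox.trans hboxA0
        have hε1 : (1 : ℝ) ≤ (B * Q0) ^ ε := Real.one_le_rpow (hM1'.trans hMQ) hε.le
        calc ((S a A).card : ℝ) ≤ (3 * (B : ℝ) / (1 : ℕ)) ^ (N i - k) *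
            (((box (N := N) (Function.update A i 0)).card : ℝ) + (S a A').card +
              (Bd a i A').card) := hst
          _ ≤ (3 * (B : ℝ) / (1 : ℕ)) ^ (N i - k) * (c0 * P * (A0 : ℝ) ^ u +
              3 ^ sN * (c0 * P * (A0 : ℝ) ^ u) + 3 ^ sN * (c0 * P * (A0 : ℝ) ^ u)) := by
              gcongr
          _ = 3 ^ (N i - k) * (c0 * (A0 : ℝ) ^ u * (1 + 3 ^ sN + 3 ^ sN)) *
              (P * (B : ℝ) ^ (N i - k)) := by
              rw [Nat.cast_one, div_one, mul_pow]
              ring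
          _ ≤ K0 * (P * (B : ℝ) ^ (N i - k)) := by
              rw [hK0]
              gcongr
              · norm_num
              · omega
          _ ≤ K * (P * (B : ℝ) ^ (N i - k)) := by
              gcongr
              exact le_max_right _ _
          _ = K * (P * (B : ℝ) ^ (N i - k)) * 1 := by ring
          _ ≤ K * (P * (B : ℝ) ^ (N i - k)) * (B * Q0) ^ ε := by gcongr
  intro A h1
  exact key _ A le_rfl h1

end Pool.Agent.X324.ML
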