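import Mathlib
import Pool.Agent.H548.BL.Main

/-! Multilinear forms in any number of vectors: gradients and slices. -/

namespace Pool.Agent.X324.ML

open Finset Matrix

variable {ι : Type} [Fintype ι] [DecidableEq ι] {N : ι → ℕ}

/-- The families of vectors, one for each factor of the product of projective spaces. -/
abbrev Vec (N : ι → ℕ) (R : Type*) : Type _ := ∀ i, Fin (N i) → R

/-- The value of the multilinear form with the integer coefficients `a`. -/
def mf {R : Type*} [CommRing R] (a : (∀ i, Fin (N i)) → ℤ) (x : Vec N R) : R :=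
  ∑ k, (a k : R) * ∏ i, x i (k i)

/-- The coefficients of the linear form which the multilinear form becomes in the `i`-th
argument: the partial derivatives. -/
def gr {R : Type*} [CommRing R] (a : (∀ i, Fin (N i)) → ℤ) (x : Vec N R) (i : ι) :
    Fin (N i) → R := fun p => mf a (Function.update x i (Pi.single p 1))

/-- The matrix of the bilinear form which the multilinear form becomes in the arguments `i`
and `j`. -/
def sl {R : Type*} [CommRing R] (a : (∀ i, Fin (N i)) → ℤ) (x : Vec N R) (i j : ι) :
    Matrix (Fin (N i)) (Fin (N j)) R :=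
  Matrix.of fun p q => mf a (Function.update (Function.update x i (Pi.single p 1)) j
    (Pi.single q 1))

/-- The multilinear map. -/
noncomputable def mfM {R : Type*} [CommRing R] (a : (∀ i, Fin (N i)) → ℤ) :
    MultilinearMap R (fun i => Fin (N i) → R) R :=
  ∑ k, (a k : R) • (MultilinearMap.mkPiAlgebra R ι R).compLinearMap
    fun i => (LinearMap.proj (k i) : (Fin (N i) → R) →ₗ[R] R)

theorem mfM_apply {R : Type*} [CommRing R] (a : (∀ i, Fin (N i)) → ℤ) (x : Vec N R) :
    mfM a x = mf a x := by
  simp [mfM, mf]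

theorem mf_update {R : Type*} [CommRing R] (a : (∀ i, Fin (N i)) → ℤ) (x : Vec N R) (i : ι)
    (v : Fin (N i) → R) : mf a (Function.update x i v) = gr a x i ⬝ᵥ v := by
  have h := LinearMap.pi_apply_eq_sum_univ ((mfM a).toLinearMap x i) v
  rw [MultilinearMap.toLinearMap_apply, mfM_apply] at h
  rw [h]
  unfold gr dotProduct
  refine Finset.sum_congr rfl fun p _ => ?_
  rw [MultilinearMap.toLinearMap_apply, mfM_apply, smul_eq_mul, mul_comm]
  congr 3
  funext j
  by_cases hj : p = j
  · subst hj
    simp
  · rw [if_neg hj, Pi.single_eq_of_ne (Ne.symm hj)]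

theorem mf_eq {R : Type*} [CommRing R] (a : (∀ i, Fin (N i)) → ℤ) (x : Vec N R) (i : ι) :
    mf a x = gr a x i ⬝ᵥ x i := by
  rw [← mf_update, Function.update_eq_self]

theorem gr_update_self {R : Type*} [CommRing R] (a : (∀ i, Fin (N i)) → ℤ) (x : Vec N R) (i : ι)
    (v : Fin (N i) → R) : gr a (Function.update x i v) i = gr a x i := by
  unfold gr
  simp only [Function.update_idem]

theorem sl_update_right {R : Type*} [CommRing R] (a : (∀ i, Fin (N i)) → ℤ) (x : Vec N R)
    {i j : ι} (hij : i ≠ j) (v : Fin (N j) → R) :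
    sl a (Function.update x j v) i j = sl a x i j := by
  unfold sl
  congr 1
  funext p q
  congr 1
  rw [Function.update_comm hij, Function.update_idem, Function.update_comm hij.symm]

theorem sl_update_left {R : Type*} [CommRing R] (a : (∀ i, Fin (N i)) → ℤ) (x : Vec N R)
    {i j : ι} (v : Fin (N i) → R) :
    sl a (Function.update x i v) i j = sl a x i j := by
  unfold sl
  congr 1
  funext p q
  rw [Function.update_idem]

theorem gr_eq_sl {R : Type*} [CommRing R] (a : (∀ i, Fin (N i)) → ℤ) (x : Vec N R) {i j : ι}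
    (hij : i ≠ j) : gr a x i = sl a x i j *ᵥ x j := by
  funext p
  have h := mf_eq a (Function.update x i (Pi.single p 1)) j
  rw [Function.update_of_ne hij.symm] at h
  exact h

theorem gr_update {R : Type*} [CommRing R] (a : (∀ i, Fin (N i)) → ℤ) (x : Vec N R) {i j : ι}
    (hij : i ≠ j) (v : Fin (N j) → R) : gr a (Function.update x j v) i = sl a x i j *ᵥ v := by
  rw [gr_eq_sl a _ hij, sl_update_right a x hij, Function.update_self]

/-- The gradient vanishes if another vector is zero. -/
theorem gr_zero {R : Type*} [CommRing R] (a : (∀ i, Fin (N i)) → ℤ) (x : Vec N R) {i j : ι}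
    (hij : i ≠ j) (h : x j = 0) : gr a x i = 0 := by
  rw [gr_eq_sl a x hij, h, mulVec_zero]

/-- The size of the gradient. -/
theorem gr_le (a : (∀ i, Fin (N i)) → ℤ) (x : Vec N ℤ) (i : ι) (W : ℕ)
    (hx : ∀ j, j ≠ i → Pool.Agent.H548.WM.ht (x j) ≤ W) (p : Fin (N i)) :
    |gr a x i p| ≤ (∑ k, |a k|) * (W : ℤ) ^ (Fintype.card ι - 1) := by
  unfold gr mf
  refine (Finset.abs_sum_le_sum_abs _ _).trans ?_
  rw [Finset.sum_mul]
  refine Finset.sum_le_sum fun k _ => ?_
  rw [abs_mul, Finset.abs_prod]
  simp only [Int.cast_id]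
  refine mul_le_mul_of_nonneg_left ?_ (abs_nonneg _)
  have h1 : ∏ j, |Function.update x i (Pi.single p 1) j (k j)| ≤
      ∏ j, (if j = i then (1 : ℤ) else W) := by
    refine Finset.prod_le_prod (fun _ _ => abs_nonneg _) fun j _ => ?_
    by_cases hj : j = i
    · subst hj
      rw [Function.update_self, if_pos rfl]
      by_cases hp : k j = p
      · rw [hp]
        simp
      · rw [Pi.single_eq_of_ne hp]
        simp
    · rw [Function.update_of_ne hj, if_neg hj]
      exact (Pool.Agent.H548.WM.le_ht' (x j) (k j)).trans (by exact_mod_cast hx j hj)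
  refine h1.trans (le_of_eq ?_)
  rw [Finset.prod_ite, Finset.prod_const_one, one_mul, Finset.prod_const,
    Finset.filter_ne' univ i, Finset.card_erase_of_mem (mem_univ i), Finset.card_univ]

end Pool.Agent.X324.ML
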