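import Pool.Agent.X324.ML.Bad

/-! The descent step in one of the factors. -/

namespace Pool.Agent.X324.ML

open Finset Matrix Module
open Pool.Agent.H548.WM (ht bx mem_bx le_ht' ht_le card_bx card_bx_le)
open Pool.Agent.H548.BL (lat mem_lat lat_doubling)

variable {ι : Type} [Fintype ι] [DecidableEq ι] {N : ι → ℕ} {k : ℕ}

/-- The integer points in a box. -/
noncomputable def box (A : ι → ℕ) : Finset (Vec N ℤ) :=
  Fintype.piFinset fun i => bx (N i) (A i)

theorem mem_box {A : ι → ℕ} {x : Vec N ℤ} : x ∈ box A ↔ ∀ i, ht (x i) ≤ A i := by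
  unfold box
  rw [Fintype.mem_piFinset]
  simp only [mem_bx]

/-- The gradients in the `i`-th argument are independent. -/
def LI (a : Fin k → (∀ i, Fin (N i)) → ℤ) (x : Vec N ℤ) (i : ι) : Prop :=
  LinearIndependent ℤ fun c => gr (a c) x i

/-- `x` satisfies the equations and is in the open set `U`. -/
def Good (a : Fin k → (∀ i, Fin (N i)) → ℤ) (x : Vec N ℤ) : Prop :=
  (∀ c, mf (a c) x = 0) ∧ ∀ i, LI a x i

/-- All slices of all members of the linear system have rank at least `R`. -/
def RankCond (a : Fin k → (∀ i, Fin (N i)) → ℤ) (R : ℕ) : Prop :=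
  ∀ s : Fin k → ℤ, s ≠ 0 → ∀ x : Vec N ℤ, (∀ i, x i ≠ 0) → ∀ i j, i ≠ j →
    R ≤ ((∑ c, s c • sl (a c) x i j).map (Int.cast : ℤ → ℝ)).rank

open Classical in
/-- The good points in a box. -/
noncomputable def S (a : Fin k → (∀ i, Fin (N i)) → ℤ) (A : ι → ℕ) : Finset (Vec N ℤ) :=
  (box A).filter (Good a)

open Classical in
/-- The bad points in a box. -/
noncomputable def Bd (a : Fin k → (∀ i, Fin (N i)) → ℤ) (i : ι) (A : ι → ℕ) :
    Finset (Vec N ℤ) :=
  (box A).filter fun x => LI a x i ∧ x i ≠ 0 ∧ ∃ j, ¬ LI a x j

theorem LI_update {a : Fin k → (∀ i, Fin (N i)) → ℤ} {x : Vec N ℤ} {i : ι}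
    (v : Fin (N i) → ℤ) : LI a (Function.update x i v) i ↔ LI a x i := by
  unfold LI
  simp only [gr_update_self]

theorem ht_zero' {m : ℕ} : ht (0 : Fin m → ℤ) = 0 := by
  have h := ht_le (v := (0 : Fin m → ℤ)) (X := 0) (by intro i; simp)
  omega

theorem proj_mem_box {A : ι → ℕ} {x : Vec N ℤ} {i : ι} (h : ∀ l, l ≠ i → ht (x l) ≤ A l) :
    Function.update x i 0 ∈ box (Function.update A i 0) := by
  rw [mem_box]
  intro l
  by_cases hl : l = i
  · subst hl
    rw [Function.update_self, Function.update_self, ht_zero']
  · rw [Function.update_of_ne hl, Function.update_of_ne hl]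
    exact h l hl

open Classical in
theorem step (a : Fin k → (∀ i, Fin (N i)) → ℤ) (i : ι) (A : ι → ℕ) (ρ : ℕ) (hρ : 1 ≤ ρ)
    (hB : ρ ≤ A i) : ((S a A).card : ℝ) ≤ (3 * A i / ρ) ^ (N i - k) *
      (((box (N := N) (Function.update A i 0)).card : ℝ) + (S a (Function.update A i ρ)).card +
        (Bd a i (Function.update A i ρ)).card) := by
  set Y : Finset (Vec N ℤ) := box (Function.update A i 0) with hY
  set A' := Function.update A i ρ with hA'
  let π : Vec N ℤ → Vec N ℤ := fun x => Function.update x i 0
  have hA'l : ∀ l, l ≠ i → A' l = A l := fun l hl => Function.update_of_ne hl _ _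
  have hπS : ∀ x ∈ S a A, π x ∈ Y := by
    intro x hx
    unfold S at hx
    rw [mem_filter, mem_box] at hx
    exact proj_mem_box fun l _ => hx.1 l
  have hπS' : ∀ x ∈ S a A', π x ∈ Y := by
    intro x hx
    unfold S at hx
    rw [mem_filter, mem_box] at hx
    exact proj_mem_box fun l hl => by rw [← hA'l l hl]; exact hx.1 l
  have hπB : ∀ x ∈ Bd a i A', π x ∈ Y := by
    intro x hx
    unfold Bd at hx
    rw [mem_filter, mem_box] at hx
    exact proj_mem_box fun l hl => by rw [← hA'l l hl]; exact hx.1 l
  have e1 := Finset.card_eq_sum_card_fiberwise (f := π) (s := S a A) (t := Y) hπS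
  have e2 := Finset.card_eq_sum_card_fiberwise (f := π) (s := S a A') (t := Y) hπS'
  have e3 := Finset.card_eq_sum_card_fiberwise (f := π) (s := Bd a i A') (t := Y) hπB
  have hq : (0 : ℝ) ≤ (3 * A i / ρ) ^ (N i - k) := by positivity
  have key : ∀ y ∈ Y, ((((S a A).filter fun x => π x = y).card : ℕ) : ℝ) ≤
      (3 * A i / ρ) ^ (N i - k) * (1 + (((S a A').filter fun x => π x = y).card : ℝ) +
        (((Bd a i A').filter fun x => π x = y).card : ℝ)) := by
    intro y _
    rcases ((S a A).filter fun x => π x = y).eq_empty_or_nonempty with h0 | ⟨x0, hx0⟩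
    · rw [h0, card_empty, Nat.cast_zero]
      positivity
    rw [mem_filter] at hx0
    obtain ⟨hx0S, hx0y⟩ := hx0
    unfold S at hx0S
    rw [mem_filter, mem_box] at hx0S
    obtain ⟨hx0b, hx0g⟩ := hx0S
    have hyi : y i = 0 := by
      rw [← hx0y]
      exact Function.update_self i _ _
    have hyu : Function.update y i 0 = y := by
      rw [← hyi, Function.update_eq_self]
    have hLI : LI a y i := by
      rw [← hx0y]
      exact (LI_update 0).2 (hx0g.2 i)
    have hyb : ∀ l, l ≠ i → ht (y l) ≤ A l := by
      intro l hl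
      rw [← hx0y]
      show ht (Function.update x0 i 0 l) ≤ A l
      rw [Function.update_of_ne hl]
      exact hx0b l
    -- a point over y
    have hrec : ∀ x, π x = y → x = Function.update y i (x i) := by
      intro x hx
      rw [← hx]
      show x = Function.update (Function.update x i 0) i (x i)
      rw [Function.update_idem, Function.update_eq_self]
    have hmfv : ∀ v : Fin (N i) → ℤ, (∀ c, mf (a c) (Function.update y i v) = 0) ↔
        v ∈ lat (fun c => gr (a c) y i) := by
      intro v
      rw [mem_lat]
      simp only [mf_update]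
    have h1 : ((S a A).filter fun x => π x = y).card ≤
        ((bx (N i) (A i)).filter (· ∈ lat fun c => gr (a c) y i)).card := by
      refine Finset.card_le_card_of_injOn (fun x => x i) ?_ ?_
      · intro x hx
        rw [mem_coe, mem_filter] at hx
        unfold S at hx
        rw [mem_filter, mem_box] at hx
        obtain ⟨⟨hxb, hxg⟩, hxy⟩ := hx
        rw [mem_coe, mem_filter, mem_bx]
        refine ⟨hxb i, ?_⟩
        rw [← hmfv, ← hrec x hxy]
        exact hxg.1
      · intro x hx x' hx' he
        rw [mem_coe, mem_filter] at hx hx'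
        rw [hrec x hx.2, hrec x' hx'.2]
        simp only at he
        rw [he]
    have h2 := lat_doubling (w := fun c => gr (a c) y i) hLI (A i) ρ hρ hB
    rw [Fintype.card_fin] at h2
    have h3 : ((bx (N i) ρ).filter (· ∈ lat fun c => gr (a c) y i)).card ≤
        1 + ((S a A').filter fun x => π x = y).card +
          ((Bd a i A').filter fun x => π x = y).card := by
      set G1 := (bx (N i) ρ).filter fun v => Function.update y i v ∈ S a A' with hG1
      set G2 := (bx (N i) ρ).filter fun v => Function.update y i v ∈ Bd a i A' with hG2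
      have hb : ∀ v, ht v ≤ ρ → Function.update y i v ∈ box A' := by
        intro v hv
        rw [mem_box]
        intro l
        by_cases hl : l = i
        · subst hl
          rw [Function.update_self, hA', Function.update_self]
          exact hv
        · rw [Function.update_of_ne hl, hA'l l hl]
          exact hyb l hl
      have hπu : ∀ v : Fin (N i) → ℤ, π (Function.update y i v) = y := by
        intro v
        show Function.update (Function.update y i v) i 0 = y
        rw [Function.update_idem, hyu]
      have hinj : ∀ v v' : Fin (N i) → ℤ, Function.update y i v = Function.update y i v' →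
          v = v' := by
        intro v v' h
        have := congrFun h i
        rwa [Function.update_self, Function.update_self] at this
      have hsub : (bx (N i) ρ).filter (· ∈ lat fun c => gr (a c) y i) ⊆ ({0} ∪ G1) ∪ G2 := by
        intro v hv
        rw [mem_filter, mem_bx] at hv
        obtain ⟨hvb, hvl⟩ := hv
        have hm := (hmfv v).2 hvl
        rw [mem_union, mem_union, mem_singleton, hG1, hG2, mem_filter, mem_filter, mem_bx]
        by_cases hv0 : v = 0
        · exact Or.inl (Or.inl hv0)
        · by_cases hall : ∀ j, LI a (Function.update y i v) j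
          · left; right
            refine ⟨hvb, ?_⟩
            unfold S
            rw [mem_filter]
            exact ⟨hb v hvb, hm, hall⟩
          · right
            refine ⟨hvb, ?_⟩
            unfold Bd
            rw [mem_filter]
            refine ⟨hb v hvb, (LI_update v).2 hLI, ?_, ?_⟩
            · rw [Function.update_self]
              exact hv0
            · push Not at hall
              exact hall
      have c1 : G1.card ≤ ((S a A').filter fun x => π x = y).card := by
        refine Finset.card_le_card_of_injOn (fun v => Function.update y i v) ?_ ?_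
        · intro v hv
          rw [mem_coe, hG1, mem_filter] at hv
          rw [mem_coe, mem_filter]
          exact ⟨hv.2, hπu v⟩
        · intro v _ v' _ h
          exact hinj v v' h
      have c2 : G2.card ≤ ((Bd a i A').filter fun x => π x = y).card := by
        refine Finset.card_le_card_of_injOn (fun v => Function.update y i v) ?_ ?_
        · intro v hv
          rw [mem_coe, hG2, mem_filter] at hv
          rw [mem_coe, mem_filter]
          exact ⟨hv.2, hπu v⟩
        · intro v _ v' _ h
          exact hinj v v' h
      have c3 := card_le_card hsub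
      have c4 := card_union_le ({0} ∪ G1) G2
      have c5 := card_union_le ({0} : Finset (Fin (N i) → ℤ)) G1
      rw [card_singleton] at c5
      omega
    calc ((((S a A).filter fun x => π x = y).card : ℕ) : ℝ) ≤
        (((bx (N i) (A i)).filter (· ∈ lat fun c => gr (a c) y i)).card : ℝ) := by
          exact_mod_cast h1
      _ ≤ _ := h2
      _ ≤ _ := by
        gcongr
        exact_mod_cast h3
  calc ((S a A).card : ℝ) = ∑ y ∈ Y, ((((S a A).filter fun x => π x = y).card : ℕ) : ℝ) := by
        rw [e1]
        push_cast
        rfl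
    _ ≤ ∑ y ∈ Y, (3 * A i / ρ : ℝ) ^ (N i - k) *
        (1 + (((S a A').filter fun x => π x = y).card : ℝ) +
        (((Bd a i A').filter fun x => π x = y).card : ℝ)) := Finset.sum_le_sum key
    _ = _ := by
      rw [← Finset.mul_sum, Finset.sum_add_distrib, Finset.sum_add_distrib, Finset.sum_const,
        nsmul_eq_mul, mul_one, e2, e3]
      push_cast
      rfl

/-- The constant of the coefficients. -/
def Ca (a : Fin k → (∀ i, Fin (N i)) → ℤ) : ℕ := ∑ c, ∑ q, (a c q).natAbs + 1

theorem ht_gr_le (a : Fin k → (∀ i, Fin (N i)) → ℤ) (c : Fin k) (x : Vec N ℤ) (i : ι) (W : ℕ)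
    (hx : ∀ j, j ≠ i → ht (x j) ≤ W) :
    ht (gr (a c) x i) ≤ Ca a * W ^ (Fintype.card ι - 1) := by
  refine ht_le fun p => (gr_le (a c) x i W hx p).trans ?_
  have h1 : ∑ q, |a c q| ≤ (Ca a : ℤ) := by
    unfold Ca
    push_cast
    have h2 : ∑ q, |a c q| ≤ ∑ c, ∑ q, |a c q| :=
      Finset.single_le_sum (f := fun c => ∑ q, |a c q|)
        (fun c _ => Finset.sum_nonneg fun q _ => abs_nonneg _) (mem_univ c)
    linarith
  push_cast
  gcongr

open Classical in
theorem card_Bd (a : Fin k → (∀ i, Fin (N i)) → ℤ) (hk : 1 ≤ k) {R : ℕ} (hR : RankCond a R)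
    (i : ι) (A : ι → ℕ) (hi : 1 ≤ A i) (M : ℕ) (hM1 : 1 ≤ M) (hM : ∀ l, A l ≤ M) :
    ((Bd a i A).card : ℝ) ≤ Fintype.card ι * (((box (N := N) (Function.update A i 0)).card : ℝ) *
      ((3 * Hb (∑ l, N l) k (Ca a * M ^ (Fintype.card ι - 1))) ^ k *
        (3 ^ N i * (3 * A i) ^ (N i - R)))) := by
  set Y : Finset (Vec N ℤ) := box (Function.update A i 0) with hY
  set h := Ca a * M ^ (Fintype.card ι - 1) with hh
  have hh1 : 1 ≤ h := by
    have : 1 ≤ Ca a := by unfold Ca; omega
    exact Nat.mul_pos this (Nat.pow_pos hM1)
  let π : Vec N ℤ → Vec N ℤ := fun x => Function.update x i 0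
  set B : ℝ := (3 * Hb (∑ l, N l) k h) ^ k * (3 ^ N i * (3 * A i) ^ (N i - R)) with hB
  have hcov : Bd a i A ⊆ univ.biUnion fun j => (Bd a i A).filter fun x => ¬ LI a x j := by
    intro x hx
    rw [mem_biUnion]
    have hx' := hx
    unfold Bd at hx'
    rw [mem_filter] at hx'
    obtain ⟨-, -, -, j, hj⟩ := hx'
    exact ⟨j, mem_univ _, by rw [mem_filter]; exact ⟨hx, hj⟩⟩
  have hj : ∀ j, ((((Bd a i A).filter fun x => ¬ LI a x j).card : ℕ) : ℝ) ≤ Y.card * B := by
    intro j
    by_cases hij : j = i
    · have : (Bd a i A).filter (fun x => ¬ LI a x j) = ∅ := by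
        rw [Finset.filter_eq_empty_iff]
        intro x hx
        unfold Bd at hx
        rw [mem_filter] at hx
        rw [hij, not_not]
        exact hx.2.1
      rw [this, card_empty, Nat.cast_zero]
      positivity
    set T := (Bd a i A).filter fun x => ¬ LI a x j with hT
    have hπ : ∀ x ∈ T, π x ∈ Y := by
      intro x hx
      rw [hT, mem_filter] at hx
      have hx1 := hx.1
      unfold Bd at hx1
      rw [mem_filter, mem_box] at hx1
      exact proj_mem_box fun l _ => hx1.1 l
    have e1 := Finset.card_eq_sum_card_fiberwise (f := π) (s := T) (t := Y) hπ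
    have key : ∀ y ∈ Y, (((T.filter fun x => π x = y).card : ℕ) : ℝ) ≤ B := by
      intro y _
      rcases (T.filter fun x => π x = y).eq_empty_or_nonempty with h0 | ⟨x0, hx0⟩
      · rw [h0, card_empty, Nat.cast_zero]
        positivity
      rw [mem_filter, hT, mem_filter] at hx0
      obtain ⟨⟨hx0B, -⟩, hx0y⟩ := hx0
      unfold Bd at hx0B
      rw [mem_filter, mem_box] at hx0B
      obtain ⟨hx0b, hx0L, hx0i, -⟩ := hx0B
      have hx0n : ∀ l, x0 l ≠ 0 := by
        intro l
        by_cases hl : l = i
        · subst hl; exact hx0i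
        · intro h0
          have h2 : gr (a ⟨0, hk⟩) x0 i = 0 := gr_zero _ _ (Ne.symm hl) h0
          exact hx0L.ne_zero ⟨0, hk⟩ h2
      have hW : ∀ c, ∀ v : Fin (N i) → ℤ, ht v ≤ A i → ht (sl (a c) x0 j i *ᵥ v) ≤ h := by
        intro c v hv
        rw [← gr_update (a c) x0 hij v]
        refine ht_gr_le a c _ j M fun l hl => ?_
        by_cases hli : l = i
        · subst hli
          rw [Function.update_self]
          exact hv.trans (hM l)
        · rw [Function.update_of_ne hli]
          exact (hx0b l).trans (hM l)
      have h1 := card_dep hk (fun c => sl (a c) x0 j i) R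
        (fun s hs => hR s hs x0 hx0n j i hij) (A i) h hi hh1 hW
      have h2 : (T.filter fun x => π x = y).card ≤ ((bx (N i) (A i)).filter fun v =>
          ¬ LinearIndependent ℤ fun c => sl (a c) x0 j i *ᵥ v).card := by
        refine Finset.card_le_card_of_injOn (fun x => x i) ?_ ?_
        · intro x hx
          rw [mem_coe, mem_filter, hT, mem_filter] at hx
          obtain ⟨⟨hxB, hxj⟩, hxy⟩ := hx
          unfold Bd at hxB
          rw [mem_filter, mem_box] at hxB
          rw [mem_coe, mem_filter, mem_bx]
          refine ⟨hxB.1 i, ?_⟩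
          have e : ∀ c, sl (a c) x0 j i *ᵥ x i = gr (a c) x j := by
            intro c
            rw [gr_eq_sl (a c) x hij]
            congr 1
            have f1 : sl (a c) (π x0) j i = sl (a c) x0 j i := sl_update_right (a c) x0 hij 0
            have f2 : sl (a c) (π x) j i = sl (a c) x j i := sl_update_right (a c) x hij 0
            rw [← f1, ← f2, hx0y, hxy]
          simp only [e]
          exact hxj
        · intro x hx x' hx' he
          rw [mem_coe, mem_filter] at hx hx'
          have hrec : ∀ z, π z = y → z = Function.update y i (z i) := by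
            intro z hz
            rw [← hz]
            show z = Function.update (Function.update z i 0) i (z i)
            rw [Function.update_idem, Function.update_eq_self]
          rw [hrec x hx.2, hrec x' hx'.2]
          simp only at he
          rw [he]
      calc (((T.filter fun x => π x = y).card : ℕ) : ℝ) ≤ _ := by exact_mod_cast h2
        _ ≤ _ := h1
        _ ≤ B := by
          rw [hB]
          have h3 : Hb (N j) k h ≤ Hb (∑ l, N l) k h := by
            unfold Hb
            refine Nat.mul_le_mul_right _ (Nat.pow_le_pow_right (by norm_num) ?_)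
            exact Finset.single_le_sum (f := N) (fun _ _ => Nat.zero_le _) (mem_univ j)
          have h4 : (Hb (N j) k h : ℝ) ≤ Hb (∑ l, N l) k h := by exact_mod_cast h3
          gcongr
    calc ((T.card : ℕ) : ℝ) = ∑ y ∈ Y, (((T.filter fun x => π x = y).card : ℕ) : ℝ) := by
          rw [e1]
          push_cast
          rfl
      _ ≤ ∑ _y ∈ Y, B := Finset.sum_le_sum key
      _ = Y.card * B := by rw [Finset.sum_const, nsmul_eq_mul]
  calc ((Bd a i A).card : ℝ) ≤
      ((univ.biUnion fun j => (Bd a i A).filter fun x => ¬ LI a x j).card : ℝ) := by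
        exact_mod_cast card_le_card hcov
    _ ≤ ∑ j, ((((Bd a i A).filter fun x => ¬ LI a x j).card : ℕ) : ℝ) := by
        exact_mod_cast card_biUnion_le
    _ ≤ ∑ _j : ι, (Y.card * B : ℝ) := Finset.sum_le_sum fun j _ => hj j
    _ = _ := by rw [Finset.sum_const, Finset.card_univ, nsmul_eq_mul]

/-- The number of points in a box. -/
theorem card_box_le (A : ι → ℕ) (hA : ∀ l, 1 ≤ A l) :
    ((box (N := N) A).card : ℝ) ≤ ∏ l, (3 * (A l : ℝ)) ^ N l := by
  unfold box
  rw [Fintype.card_piFinset]
  push_cast
  exact Finset.prod_le_prod (fun _ _ => by positivity) fun l _ => card_bx_le (N l) (hA l)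

theorem card_box_zero_le (A : ι → ℕ) (hA : ∀ l, 1 ≤ A l) (i : ι) :
    ((box (N := N) (Function.update A i 0)).card : ℝ) ≤
      ∏ l ∈ univ.erase i, (3 * (A l : ℝ)) ^ N l := by
  unfold box
  rw [Fintype.card_piFinset]
  push_cast
  rw [← Finset.mul_prod_erase univ _ (mem_univ i), Function.update_self]
  have h0 : ((bx (N i) 0).card : ℝ) = 1 := by
    rw [card_bx]
    simp
  rw [h0, one_mul]
  refine Finset.prod_le_prod (fun _ _ => by positivity) fun l hl => ?_
  rw [Function.update_of_ne (Finset.ne_of_mem_erase hl)]
  exact card_bx_le (N l) (hA l)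

end Pool.Agent.X324.ML
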